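import Mathlib

/-!
Definitions of the statement on actions of polynomial automorphism groups on real trees.
`AutP k n` is the group of `k`-algebra automorphisms of `k[X_0, ..., X_(n-1)]` and
`IsRTree X` says that the metric space `X` is a real tree (geodesic and 0-hyperbolic).
-/

set_option autoImplicit false

namespace Pool.Agent.Work.AffTree

open MvPolynomial

universe u

/-- A real tree: a geodesic metric space which satisfies the Gromov inequality with `δ = 0`. -/
structure IsRTree (X : Type*) [MetricSpace X] : Prop where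
  geod : ∀ x y : X, ∃ γ : ℝ → X, γ 0 = x ∧ γ (dist x y) = y ∧
    ∀ s t : ℝ, 0 ≤ s → s ≤ dist x y → 0 ≤ t → t ≤ dist x y → dist (γ s) (γ t) = |s - t|
  hyp : ∀ x y z w : X,
    min ((dist x w + dist y w - dist x y) / 2) ((dist y w + dist z w - dist y z) / 2)
      ≤ (dist x w + dist z w - dist x z) / 2

/-- the automorphism group of the polynomial ring in `n` variables -/
abbrev AutP (k : Type u) [Field k] (n : ℕ) : Type u :=
  MvPolynomial (Fin n) k ≃ₐ[k] MvPolynomial (Fin n) k

/-- The subgroup generated by the elementary automorphisms `X i ↦ X i + P`, all other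
variables fixed, where `P` omits `X i` and, unless `k` has characteristic zero, at least one
further variable. -/
noncomputable def ElemGroup (k : Type*) [Field k] (n : ℕ) : Subgroup (AutP k n) :=
  Subgroup.closure {g | ∃ (i : Fin n) (P : MvPolynomial (Fin n) k), i ∉ P.vars ∧
    (CharZero k ∨ ∃ j, j ≠ i ∧ j ∉ P.vars) ∧
    g (X i) = X i + P ∧ ∀ l, l ≠ i → g (X l) = X l}

/-- The subgroup generated by the automorphisms `X i ↦ c X i + P`, all other variables fixed,
where `c` is a nonzero constant and `P` omits `X i` and, unless `k` has characteristic zero,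
at least one further variable. In characteristic zero this is the tame group. -/
noncomputable def TameGroup (k : Type*) [Field k] (n : ℕ) : Subgroup (AutP k n) :=
  Subgroup.closure {g | ∃ (i : Fin n) (c : k) (P : MvPolynomial (Fin n) k), c ≠ 0 ∧
    i ∉ P.vars ∧ (CharZero k ∨ ∃ j, j ≠ i ∧ j ∉ P.vars) ∧
    g (X i) = C c * X i + P ∧ ∀ l, l ≠ i → g (X l) = X l}

/-- `g` maps the ring of polynomials without `X j` onto itself and `X j` to `c X j + P` with a
nonzero constant `c` and `P` without `X j`. (Every automorphism of the polynomial ring in the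
other `n - 1` variables, tame or not, extends to such `g`.) -/
def PreservesCoord (k : Type*) [Field k] (n : ℕ) (j : Fin n) (g : AutP k n) : Prop :=
  (∀ P : MvPolynomial (Fin n) k, j ∉ P.vars ↔ j ∉ (g P).vars) ∧
    ∃ (c : k) (P : MvPolynomial (Fin n) k), c ≠ 0 ∧ j ∉ P.vars ∧ g (X j) = C c * X j + P

/-- acylindrical actions, in the format of the frozen statement -/
def Acyl (Γ : Type*) [Group Γ] (X : Type*) [MetricSpace X] [MulAction Γ X] : Prop :=
  ∀ ε : ℝ, 0 < ε → ∃ (R : ℝ) (N : ℕ), ∀ x y : X, R ≤ dist x y →
    {g : Γ | dist x (g • x) ≤ ε ∧ dist y (g • y) ≤ ε}.Finite ∧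
    {g : Γ | dist x (g • x) ≤ ε ∧ dist y (g • y) ≤ ε}.ncard ≤ N

end Pool.Agent.Work.AffTree
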