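import Pool.Agent.Work.MP_b2cdcf_al_h99.Defs

/-!
Definitions: hyperbolic spaces and additive group actions on affine space with their replicas.
-/

set_option autoImplicit false

namespace Pool.Agent.Work.AffTree

universe u

/-- A geodesic metric space which satisfies the Gromov inequality with constant `δ`. -/
structure IsHyp (X : Type*) [MetricSpace X] (δ : ℝ) : Prop where
  geod : ∀ x y : X, ∃ γ : ℝ → X, γ 0 = x ∧ γ (dist x y) = y ∧
    ∀ s t : ℝ, 0 ≤ s → s ≤ dist x y → 0 ≤ t → t ≤ dist x y → dist (γ s) (γ t) = |s - t|
  hyp : ∀ x y z w : X,
    min ((dist x w + dist y w - dist x y) / 2) ((dist y w + dist z w - dist y z) / 2) - δ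
      ≤ (dist x w + dist z w - dist x z) / 2

/-- An action of the additive group on affine `n`-space over `k`, given on polynomials by
`P ↦ φ P`, a polynomial in the time variable with coefficients in `k[X_0, ..., X_(n-1)]`: time
`0` acts trivially, and acting with time `T` and then applying `φ` (with time `S`) to the
coefficients is acting with time `T + S`. In characteristic zero these are the maps
`P ↦ ∑ D^i(P) T^i / i!` for the locally nilpotent derivations `D`. -/
structure GaAction (k : Type u) [Field k] (n : ℕ) where
  φ : MvPolynomial (Fin n) k →ₐ[k] Polynomial (MvPolynomial (Fin n) k)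
  zero : ∀ P, (φ P).eval 0 = P
  add : ∀ P, (φ P).map φ.toRingHom =
    ((φ P).map Polynomial.C).comp (Polynomial.X + Polynomial.C Polynomial.X)

/-- The replicas of the action: the automorphisms `P ↦ φ P` at time `f`, for an invariant `f`.
For a locally nilpotent derivation `D` these are the automorphisms `exp(f D)` with
`D f = 0`. -/
def GaAction.replicas {k : Type u} [Field k] {n : ℕ} (α : GaAction k n) : Set (AutP k n) :=
  {u | ∃ f, α.φ f = Polynomial.C f ∧ ∀ P, u P = (α.φ P).eval f}

end Pool.Agent.Work.AffTree
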