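import Pool.Agent.Work.MP_b2cdcf_al_h99.Defs

/-!
Elementary automorphisms of polynomial rings.
-/

set_option autoImplicit false

namespace Pool.Agent.Work.AffTree

open MvPolynomial

universe u

variable {k : Type u} [Field k] {n : ℕ}

theorem hom_congr (f g : MvPolynomial (Fin n) k →ₐ[k] MvPolynomial (Fin n) k)
    (P : MvPolynomial (Fin n) k) (h : ∀ j ∈ P.vars, f (X j) = g (X j)) : f P = g P :=
  hom_congr_vars (f₁ := f.toRingHom) (f₂ := g.toRingHom)
    (by ext x; simp) (fun i hi _ => h i hi) rfl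

theorem fix_of (g : AutP k n) (P : MvPolynomial (Fin n) k)
    (h : ∀ j ∈ P.vars, g (X j) = X j) : g P = P := by
  have := hom_congr (g : MvPolynomial (Fin n) k →ₐ[k] MvPolynomial (Fin n) k)
    (AlgHom.id k _) P (fun j hj => by simpa using h j hj)
  simpa using this

theorem map_mem (g : MvPolynomial (Fin n) k →ₐ[k] MvPolynomial (Fin n) k)
    (S : Subalgebra k (MvPolynomial (Fin n) k)) (P : MvPolynomial (Fin n) k)
    (h : ∀ j ∈ P.vars, g (X j) ∈ S) : g P ∈ S := by
  have h1 : P ∈ supported k (P.vars : Set (Fin n)) := mem_supported.2 subset_rfl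
  have h2 : supported k (P.vars : Set (Fin n)) ≤ S.comap g := by
    rw [supported_eq_adjoin_X]
    refine Algebra.adjoin_le ?_
    rintro _ ⟨j, hj, rfl⟩
    exact h j hj
  exact h2 h1

/-- polynomials which omit the variable `i` -/
noncomputable def Om (k : Type u) [Field k] {n : ℕ} (i : Fin n) :
    Subalgebra k (MvPolynomial (Fin n) k) := supported k {i}ᶜ

theorem mem_Om {i : Fin n} {P : MvPolynomial (Fin n) k} : P ∈ Om k i ↔ i ∉ P.vars := by
  rw [Om, mem_supported, Set.subset_compl_singleton_iff, Finset.mem_coe]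

theorem X_mem_Om {i j : Fin n} (h : j ≠ i) : (X j : MvPolynomial (Fin n) k) ∈ Om k i := by
  rw [Om, supported_eq_adjoin_X]
  exact Algebra.subset_adjoin ⟨j, h, rfl⟩

theorem C_mem_Om {i : Fin n} (c : k) : (C c : MvPolynomial (Fin n) k) ∈ Om k i :=
  (Om k i).algebraMap_mem c

theorem fix_Om {i : Fin n} (g : AutP k n) (h : ∀ j ≠ i, g (X j) = X j)
    {P : MvPolynomial (Fin n) k} (hP : P ∈ Om k i) : g P = P :=
  fix_of g P (fun j hj => h j (fun e => mem_Om.1 hP (e ▸ hj)))

theorem map_Om {i : Fin n} (g : AutP k n) {P : MvPolynomial (Fin n) k}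
    (h : ∀ j ∈ P.vars, g (X j) ∈ Om k i) : g P ∈ Om k i :=
  map_mem (g : MvPolynomial (Fin n) k →ₐ[k] MvPolynomial (Fin n) k) (Om k i) P h

theorem aut_ext {f g : AutP k n} (h : ∀ j, f (X j) = g (X j)) : f = g := by
  have : (f : MvPolynomial (Fin n) k →ₐ[k] MvPolynomial (Fin n) k) = g :=
    algHom_ext (fun j => h j)
  exact AlgEquiv.ext (fun x => DFunLike.congr_fun this x)

/-- the substitution `X i ↦ X i + P` -/
noncomputable def eHom (i : Fin n) (P : MvPolynomial (Fin n) k) :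
    MvPolynomial (Fin n) k →ₐ[k] MvPolynomial (Fin n) k :=
  aeval (fun j => if j = i then X i + P else X j)

theorem eHom_X (i : Fin n) (P : MvPolynomial (Fin n) k) : eHom i P (X i) = X i + P := by
  simp [eHom]

theorem eHom_X_ne (i : Fin n) (P : MvPolynomial (Fin n) k) {j : Fin n} (h : j ≠ i) :
    eHom i P (X j) = X j := by
  simp [eHom, h]

theorem eHom_Om (i : Fin n) (P : MvPolynomial (Fin n) k) {Q : MvPolynomial (Fin n) k}
    (hQ : Q ∈ Om k i) : eHom i P Q = Q := by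
  have := hom_congr (eHom i P) (AlgHom.id k _) Q (fun j hj => by
    rw [eHom_X_ne i P (fun e => mem_Om.1 hQ (e ▸ hj))]; rfl)
  simpa using this

theorem eHom_comp (i : Fin n) {P : MvPolynomial (Fin n) k} (hP : P ∈ Om k i) :
    (eHom i P).comp (eHom i (-P)) = AlgHom.id k _ := by
  apply algHom_ext
  intro j
  rw [AlgHom.comp_apply]
  by_cases h : j = i
  · subst h
    rw [eHom_X, map_add, eHom_X, eHom_Om _ _ ((Om k j).neg_mem hP)]
    simp
  · rw [eHom_X_ne _ _ h, eHom_X_ne _ _ h]; simp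

open Classical in
/-- the elementary automorphism `X i ↦ X i + P` if `P` omits `X i`
(and the identity otherwise) -/
noncomputable def e (i : Fin n) (P : MvPolynomial (Fin n) k) : AutP k n :=
  if h : P ∈ Om k i then
    AlgEquiv.ofAlgHom (eHom i P) (eHom i (-P)) (eHom_comp i h)
      (by simpa using eHom_comp i ((Om k i).neg_mem h))
  else 1

theorem e_X {i : Fin n} {P : MvPolynomial (Fin n) k} (h : P ∈ Om k i) :
    e i P (X i) = X i + P := by
  rw [e, dif_pos h]
  exact eHom_X i P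

theorem e_X_ne {i : Fin n} (P : MvPolynomial (Fin n) k) {j : Fin n} (hj : j ≠ i) :
    e i P (X j) = X j := by
  unfold e
  split_ifs with h
  · exact eHom_X_ne i P hj
  · rfl

theorem e_Om {i : Fin n} (P : MvPolynomial (Fin n) k) {Q : MvPolynomial (Fin n) k}
    (h : Q ∈ Om k i) : e i P Q = Q := fix_Om _ (fun _ hj => e_X_ne P hj) h

/-- `e i P` maps polynomials omitting `j` to such polynomials, if `P` omits `j` -/
theorem e_map_Om {i j : Fin n} {P Q : MvPolynomial (Fin n) k} (hP : P ∈ Om k i)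
    (hP' : P ∈ Om k j) (h : Q ∈ Om k j) : e i P Q ∈ Om k j := by
  refine map_Om _ (fun l hl => ?_)
  have hl' : l ≠ j := fun e => mem_Om.1 h (e ▸ hl)
  by_cases hli : l = i
  · subst hli
    rw [e_X hP]
    exact (Om k j).add_mem (X_mem_Om hl') hP'
  · rw [e_X_ne _ hli]
    exact X_mem_Om hl'

theorem eq_e {i : Fin n} {P : MvPolynomial (Fin n) k} (hP : P ∈ Om k i) {g : AutP k n}
    (h1 : g (X i) = X i + P) (h2 : ∀ j ≠ i, g (X j) = X j) : g = e i P := by
  apply aut_ext
  intro j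
  by_cases h : j = i
  · subst h; rw [h1, e_X hP]
  · rw [h2 j h, e_X_ne _ h]

theorem e_mul {i : Fin n} {P Q : MvPolynomial (Fin n) k} (hP : P ∈ Om k i) (hQ : Q ∈ Om k i) :
    e i P * e i Q = e i (P + Q) := by
  refine eq_e ((Om k i).add_mem hP hQ) ?_ ?_
  · rw [AlgEquiv.mul_apply, e_X hQ, map_add, e_X hP, e_Om _ hQ]; ring
  · intro j hj
    rw [AlgEquiv.mul_apply, e_X_ne _ hj, e_X_ne _ hj]

theorem e_zero (i : Fin n) : e i (0 : MvPolynomial (Fin n) k) = 1 := by
  symm
  exact eq_e (Om k i).zero_mem (by simp) (by simp)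

theorem e_inv {i : Fin n} {P : MvPolynomial (Fin n) k} (hP : P ∈ Om k i) :
    (e i P)⁻¹ = e i (-P) := by
  rw [inv_eq_iff_mul_eq_one, e_mul hP ((Om k i).neg_mem hP), add_neg_cancel, e_zero]

theorem e_comm {i : Fin n} {P Q : MvPolynomial (Fin n) k} (hP : P ∈ Om k i)
    (hQ : Q ∈ Om k i) : Commute (e i P) (e i Q) := by
  rw [Commute, SemiconjBy, e_mul hP hQ, e_mul hQ hP, add_comm]

/-- the commutator formula -/
theorem comm_formula {i j : Fin n} (hij : i ≠ j) {P Q : MvPolynomial (Fin n) k}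
    (hP : P ∈ Om k i) (hQi : Q ∈ Om k i) (hQj : Q ∈ Om k j) :
    e i P * e j Q = e i (P - e j Q P) * e j Q * e i P := by
  have h1 : e j Q P ∈ Om k i := e_map_Om hQj hQi hP
  have h2 : P - e j Q P ∈ Om k i := (Om k i).sub_mem hP h1
  apply aut_ext
  intro l
  simp only [AlgEquiv.mul_apply]
  by_cases hli : l = i
  · subst hli
    rw [e_X_ne _ hij, e_X hP, map_add, map_add, e_X_ne _ hij, e_X h2, e_Om _ h1]
    ring
  · by_cases hlj : l = j
    · subst hlj
      rw [e_X hQj, e_X_ne _ hli, e_X hQj, map_add, e_X_ne _ hli, map_add, e_X_ne _ hli,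
        e_Om _ hQi, e_Om _ hQi]
    · simp only [e_X_ne _ hli, e_X_ne _ hlj]

/-- conjugation formula: `(e j Q)⁻¹ * e i P * e j Q` is elementary if `Q` omits `i` -/
theorem conj_formula {i j : Fin n} (hij : i ≠ j) {P Q : MvPolynomial (Fin n) k}
    (hP : P ∈ Om k i) (hQi : Q ∈ Om k i) (hQj : Q ∈ Om k j) :
    (e j Q)⁻¹ * e i P * e j Q = e i (e j (-Q) P) := by
  have hQi' : -Q ∈ Om k i := (Om k i).neg_mem hQi
  have hQj' : -Q ∈ Om k j := (Om k j).neg_mem hQj
  have h1 : e j (-Q) P ∈ Om k i := e_map_Om hQj' hQi' hP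
  rw [e_inv hQj]
  refine eq_e h1 ?_ ?_
  · simp only [AlgEquiv.mul_apply]
    rw [e_X_ne _ hij, e_X hP, map_add, e_X_ne _ hij]
  · intro l hli
    simp only [AlgEquiv.mul_apply]
    by_cases hlj : l = j
    · subst hlj
      rw [e_X hQj, map_add, e_X_ne _ hli, e_Om _ hQi, map_add, e_X hQj', e_Om _ hQj]
      ring
    · simp only [e_X_ne _ hli, e_X_ne _ hlj]

/-- the additive group of all `P` with `e i P ∈ H` -/
def Ad (H : Subgroup (AutP k n)) (i : Fin n) : AddSubgroup (MvPolynomial (Fin n) k) where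
  carrier := {P | P ∈ Om k i ∧ e i P ∈ H}
  zero_mem' := ⟨(Om k i).zero_mem, by rw [e_zero]; exact H.one_mem⟩
  add_mem' := fun {a b} ha hb => ⟨(Om k i).add_mem ha.1 hb.1, by
    rw [← e_mul ha.1 hb.1]; exact H.mul_mem ha.2 hb.2⟩
  neg_mem' := fun {a} ha => ⟨(Om k i).neg_mem ha.1, by
    rw [← e_inv ha.1]; exact H.inv_mem ha.2⟩

theorem mem_Ad {H : Subgroup (AutP k n)} {i : Fin n} {P : MvPolynomial (Fin n) k} :
    P ∈ Ad H i ↔ P ∈ Om k i ∧ e i P ∈ H := Iff.rfl

theorem Ad_comm {H : Subgroup (AutP k n)} {i j : Fin n} (hij : i ≠ j)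
    {P Q : MvPolynomial (Fin n) k} (hP : P ∈ Ad H i) (hQ : Q ∈ Ad H j) (hQi : Q ∈ Om k i) :
    e j Q P - P ∈ Ad H i := by
  rw [← neg_mem_iff, neg_sub]
  have h1 : e j Q P ∈ Om k i := e_map_Om hQ.1 hQi hP.1
  refine ⟨(Om k i).sub_mem hP.1 h1, ?_⟩
  have h2 := comm_formula hij hP.1 hQi hQ.1
  have h3 : e i (P - e j Q P) = e i P * e j Q * (e i P)⁻¹ * (e j Q)⁻¹ := by
    rw [h2]; group
  rw [h3]
  exact H.mul_mem (H.mul_mem (H.mul_mem hP.2 hQ.2) (H.inv_mem hP.2)) (H.inv_mem hQ.2)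

theorem inv_X {φ : AutP k n} {P Q : MvPolynomial (Fin n) k} (h : φ P = Q) : φ⁻¹ Q = P := by
  rw [← h]
  exact φ.symm_apply_apply P

/-- conjugation of elementary automorphisms by a (signed) permutation of the variables -/
theorem Ad_conj {H : Subgroup (AutP k n)} {φ : AutP k n} (hφ : φ ∈ H) {i i' b b' : Fin n}
    (h1 : φ (X i) = X i') (h2 : ∀ l ≠ i', φ⁻¹ (X l) ∈ Om k i)
    (h3 : ∀ l ≠ i', l ≠ b' → φ⁻¹ (X l) ∈ Om k b)
    (hR : ∀ P, P ∈ Om k i → P ∈ Om k b → P ∈ Ad H i) :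
    ∀ Q, Q ∈ Om k i' → Q ∈ Om k b' → Q ∈ Ad H i' := by
  intro Q hQ hQ'
  have h4 : φ⁻¹ Q ∈ Om k i := map_Om _ (fun l hl => h2 l (fun e => mem_Om.1 hQ (e ▸ hl)))
  have h5 : φ⁻¹ Q ∈ Om k b := map_Om _ (fun l hl => h3 l (fun e => mem_Om.1 hQ (e ▸ hl))
    (fun e => mem_Om.1 hQ' (e ▸ hl)))
  have h6 := hR _ h4 h5
  refine ⟨hQ, ?_⟩
  have h7 : φ (φ⁻¹ Q) = Q := φ.apply_symm_apply Q
  have h8 : φ * e i (φ⁻¹ Q) * φ⁻¹ = e i' Q := by
    refine eq_e hQ ?_ ?_
    · simp only [AlgEquiv.mul_apply]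
      rw [inv_X h1, e_X h4, map_add, h1, h7]
    · intro l hl
      simp only [AlgEquiv.mul_apply]
      rw [e_Om _ (h2 l hl)]
      exact φ.apply_symm_apply (X l)
  rw [← h8]
  exact H.mul_mem (H.mul_mem hφ h6.2) (H.inv_mem hφ)

/-- the signed swaps -/
theorem exists_swap {H : Subgroup (AutP k n)}
    (hT : ∀ i j : Fin n, i ≠ j → (X j : MvPolynomial (Fin n) k) ∈ Ad H i) {a b : Fin n}
    (hab : a ≠ b) : ∃ φ ∈ H, φ (X a) = X b ∧ φ (X b) = - X a ∧
      ∀ l, l ≠ a → l ≠ b → φ (X l) = X l := by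
  have h1 := hT a b hab
  have h2 := (Ad H b).neg_mem (hT b a hab.symm)
  refine ⟨e a (X b) * e b (-X a) * e a (X b), H.mul_mem (H.mul_mem h1.2 h2.2) h1.2, ?_, ?_, ?_⟩
  · simp only [AlgEquiv.mul_apply]
    rw [e_X h1.1, map_add, e_X_ne _ hab, e_X h2.1]
    rw [add_add_neg_cancel'_right, e_X_ne _ hab.symm]
  · simp only [AlgEquiv.mul_apply]
    rw [e_X_ne _ hab.symm, e_X h2.1, map_add, e_X_ne _ hab.symm, map_neg, e_X h1.1]
    ring
  · intro l hla hlb
    simp only [AlgEquiv.mul_apply]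
    simp only [e_X_ne _ hla, e_X_ne _ hlb]

/-- all `e i P` with `P` omitting `i` and a second variable, from the transvections and one
pair -/
theorem Ad_all {H : Subgroup (AutP k n)}
    (hT : ∀ i j : Fin n, i ≠ j → (X j : MvPolynomial (Fin n) k) ∈ Ad H i)
    {i0 b0 : Fin n} (h00 : i0 ≠ b0)
    (hR : ∀ P, P ∈ Om k i0 → P ∈ Om k b0 → P ∈ Ad H i0) (hn : 3 ≤ n) :
    ∀ i b : Fin n, i ≠ b → ∀ P, P ∈ Om k i → P ∈ Om k b → P ∈ Ad H i := by
  have step1 : ∀ i j b : Fin n, i ≠ b → j ≠ i → j ≠ b →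
      (∀ P, P ∈ Om k i → P ∈ Om k b → P ∈ Ad H i) →
      ∀ P, P ∈ Om k j → P ∈ Om k b → P ∈ Ad H j := by
    intro i j b hib hji hjb h
    obtain ⟨φ, hφ, p1, p2, p3⟩ := exists_swap hT hji.symm
    have q1 : φ⁻¹ (X j) = X i := inv_X p1
    have q2 : φ⁻¹ (X i) = - X j := inv_X (by rw [map_neg, p2, neg_neg])
    have q3 : ∀ l, l ≠ i → l ≠ j → φ⁻¹ (X l) = X l := fun l h1 h2 => inv_X (p3 l h1 h2)
    refine Ad_conj hφ p1 ?_ ?_ h
    · intro l hl
      by_cases hli : l = i
      · subst hli; rw [q2]; exact (Om k _).neg_mem (X_mem_Om hji)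
      · rw [q3 l hli hl]; exact X_mem_Om hli
    · intro l hl hlb
      by_cases hli : l = i
      · subst hli; rw [q2]; exact (Om k _).neg_mem (X_mem_Om hjb)
      · rw [q3 l hli hl]; exact X_mem_Om hlb
  have step2 : ∀ i b c : Fin n, i ≠ b → c ≠ i → c ≠ b →
      (∀ P, P ∈ Om k i → P ∈ Om k b → P ∈ Ad H i) →
      ∀ P, P ∈ Om k i → P ∈ Om k c → P ∈ Ad H i := by
    intro i b c hib hci hcb h
    obtain ⟨φ, hφ, p1, p2, p3⟩ := exists_swap hT hcb.symm
    have q1 : φ⁻¹ (X c) = X b := inv_X p1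
    have q2 : φ⁻¹ (X b) = - X c := inv_X (by rw [map_neg, p2, neg_neg])
    have q3 : ∀ l, l ≠ b → l ≠ c → φ⁻¹ (X l) = X l := fun l h1 h2 => inv_X (p3 l h1 h2)
    refine Ad_conj hφ (p3 i hib hci.symm) ?_ ?_ h
    · intro l hl
      by_cases hlb : l = b
      · subst hlb; rw [q2]; exact (Om k _).neg_mem (X_mem_Om hci)
      · by_cases hlc : l = c
        · subst hlc; rw [q1]; exact X_mem_Om hib.symm
        · rw [q3 l hlb hlc]; exact X_mem_Om hl
    · intro l hl hlc
      by_cases hlb : l = b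
      · subst hlb; rw [q2]; exact (Om k _).neg_mem (X_mem_Om hcb)
      · rw [q3 l hlb hlc]; exact X_mem_Om hlb
  -- a third index
  have third : ∀ i b : Fin n, ∃ c, c ≠ i ∧ c ≠ b := by
    intro i b
    by_contra hcon
    push Not at hcon
    have : (Finset.univ : Finset (Fin n)) ⊆ {i, b} := by
      intro c _
      simp only [Finset.mem_insert, Finset.mem_singleton]
      by_cases h : c = i
      · exact Or.inl h
      · exact Or.inr (hcon c h)
    have h2 := (Finset.card_le_card this).trans Finset.card_le_two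
    rw [Finset.card_univ, Fintype.card_fin] at h2
    omega
  -- same second index
  have s1 : ∀ i, i ≠ b0 → ∀ P, P ∈ Om k i → P ∈ Om k b0 → P ∈ Ad H i := by
    intro i hi
    by_cases h : i = i0
    · subst h; exact hR
    · exact step1 i0 i b0 h00 h hi hR
  have s2 : ∀ i b, i ≠ b → i ≠ b0 → ∀ P, P ∈ Om k i → P ∈ Om k b → P ∈ Ad H i := by
    intro i b hib hi
    by_cases h : b = b0
    · subst h; exact s1 i hi
    · exact step2 i b0 b hi hib.symm h (s1 i hi)
  intro i b hib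
  by_cases hi : i = b0
  · subst hi
    obtain ⟨c, c1, c2⟩ := third i b
    exact step1 c i b c2 c1.symm hib (s2 c b c2 c1)
  · exact s2 i b hib hi

theorem third_index (hn : 3 ≤ n) (i b : Fin n) : ∃ c, c ≠ i ∧ c ≠ b := by
  by_contra hcon
  push Not at hcon
  have : (Finset.univ : Finset (Fin n)) ⊆ {i, b} := by
    intro c _
    simp only [Finset.mem_insert, Finset.mem_singleton]
    by_cases h : c = i
    · exact Or.inl h
    · exact Or.inr (hcon c h)
  have h2 := (Finset.card_le_card this).trans Finset.card_le_two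
  rw [Finset.card_univ, Fintype.card_fin] at h2
  omega

/-- characteristic zero: everything -/
theorem Ad_zero [CharZero k] {H : Subgroup (AutP k n)} (hn : 3 ≤ n)
    (hA : ∀ i b : Fin n, i ≠ b → ∀ P, P ∈ Om k i → P ∈ Om k b → P ∈ Ad H i)
    (i : Fin n) (P : MvPolynomial (Fin n) k) (hP : P ∈ Om k i) : P ∈ Ad H i := by
  obtain ⟨b, hb, -⟩ := third_index hn i i
  obtain ⟨c, hci, hcb⟩ := third_index hn i b
  have key : ∀ t : ℕ, ∀ Q, Q ∈ Om k i → Q ∈ Om k b → X b ^ t * Q ∈ Ad H i := by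
    intro t
    induction t using Nat.strong_induction_on with
    | _ t ih =>
      intro Q hQi hQb
      set F : MvPolynomial (Fin n) k := C ((t + 1 : k)⁻¹) * X b ^ (t + 1) with hF
      have hFA : F ∈ Ad H i := by
        refine hA i c hci.symm F ?_ ?_
        · exact (Om k i).mul_mem (C_mem_Om _) ((Om k i).pow_mem (X_mem_Om hb) _)
        · exact (Om k c).mul_mem (C_mem_Om _) ((Om k c).pow_mem (X_mem_Om hcb.symm) _)
      have h1 := Ad_comm hb.symm hFA (hA b i hb Q hQb hQi) hQi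
      have ht : (t + 1 : k) ≠ 0 := by exact_mod_cast Nat.succ_ne_zero t
      have h2 : e b Q F - F = X b ^ t * Q + ∑ s ∈ Finset.range t,
          X b ^ s * (C ((t + 1 : k)⁻¹ * ((t + 1).choose s : k)) * Q ^ (t + 1 - s)) := by
        have h3 : e b Q F = C ((t + 1 : k)⁻¹) * (X b + Q) ^ (t + 1) := by
          rw [hF, map_mul, map_pow, e_X hQb]
          congr 1
          exact AlgEquiv.commutes _ _
        rw [h3, add_pow, Finset.sum_range_succ, Finset.sum_range_succ, hF]
        simp only [Nat.choose_self, Nat.cast_one, mul_one, le_refl, tsub_eq_zero_of_le, pow_zero,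
          Nat.choose_succ_self_right, Nat.cast_add, add_tsub_cancel_left, pow_one]
        have h4 : (C ((t + 1 : k)⁻¹) : MvPolynomial (Fin n) k) * (X b ^ t * Q * ((t : MvPolynomial (Fin n) k) + 1)) =
            X b ^ t * Q := by
          have : ((t : MvPolynomial (Fin n) k) + 1) = C (t + 1 : k) := by simp
          rw [this, mul_comm, mul_assoc, ← C_mul, mul_inv_cancel₀ ht, C_1, mul_one]
        have h5 : (C ((t + 1 : k)⁻¹) : MvPolynomial (Fin n) k) * ∑ x ∈ Finset.range t,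
            X b ^ x * Q ^ (t + 1 - x) * (((t + 1).choose x : ℕ) : MvPolynomial (Fin n) k) =
            ∑ s ∈ Finset.range t,
              X b ^ s * (C ((t + 1 : k)⁻¹ * ((t + 1).choose s : k)) * Q ^ (t + 1 - s)) := by
          rw [Finset.mul_sum]
          refine Finset.sum_congr rfl (fun s _ => ?_)
          rw [C_mul, map_natCast]
          ring
        rw [mul_add, mul_add, h4, h5]
        ring
      rw [h2] at h1
      have h6 : ∑ s ∈ Finset.range t,
          X b ^ s * (C ((t + 1 : k)⁻¹ * ((t + 1).choose s : k)) * Q ^ (t + 1 - s)) ∈ Ad H i := by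
        refine sum_mem (fun s hs => ?_)
        refine ih s (Finset.mem_range.1 hs) _ ?_ ?_
        · exact (Om k i).mul_mem (C_mem_Om _) ((Om k i).pow_mem hQi _)
        · exact (Om k b).mul_mem (C_mem_Om _) ((Om k b).pow_mem hQb _)
      exact ((Ad H i).add_mem_cancel_right h6).1 h1
  rw [P.as_sum]
  refine sum_mem (fun m hm => ?_)
  have hmi : m i = 0 := by
    by_contra h
    exact mem_Om.1 hP (mem_vars_iff_mem_support i |>.2 ⟨m, hm, Finsupp.mem_support_iff.2 h⟩)
  have hsplit : (monomial m (coeff m P) : MvPolynomial (Fin n) k) =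
      X b ^ (m b) * monomial (m.erase b) (coeff m P) := by
    rw [X_pow_eq_monomial, monomial_mul, one_mul, Finsupp.single_add_erase]
  rw [hsplit]
  have hv : ∀ l, (m.erase b) l = 0 →
      (monomial (m.erase b) (coeff m P) : MvPolynomial (Fin n) k) ∈ Om k l := by
    intro l hl
    rw [mem_Om]
    intro h
    by_cases hr : coeff m P = 0
    · rw [hr, monomial_zero] at h
      simp only [vars_0] at h
      exact absurd h (Finset.notMem_empty _)
    · rw [vars_monomial hr] at h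
      exact Finsupp.mem_support_iff.1 h hl
  refine key _ _ (hv i ?_) (hv b (Finsupp.erase_same))
  rw [Finsupp.erase_ne hb.symm]
  exact hmi

end Pool.Agent.Work.AffTree
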