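import Pool.Agent.Work.MP_b2cdcf_al_h99.Elem
import Pool.Agent.Work.MP_b2cdcf_al_h99.DefsGa

/-!
Additive group actions on affine space: replicas.
-/

set_option autoImplicit false

namespace Pool.Agent.Work.AffTree

universe u

open Polynomial

variable {k : Type u} [Field k] {n : ℕ} (α : GaAction k n)

/-- evaluation of the action at time `f` -/
noncomputable def Ev (f : MvPolynomial (Fin n) k) :
    MvPolynomial (Fin n) k →ₐ[k] MvPolynomial (Fin n) k :=
  ((Polynomial.aeval (R := MvPolynomial (Fin n) k) f).restrictScalars k).comp α.φ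

theorem Ev_apply (f P : MvPolynomial (Fin n) k) : Ev α f P = (α.φ P).eval f := by
  rw [Ev, AlgHom.comp_apply, AlgHom.restrictScalars_apply, Polynomial.coe_aeval_eq_eval]

/-- invariants -/
def IsInv (f : MvPolynomial (Fin n) k) : Prop := α.φ f = C f

theorem inv_add {f g : MvPolynomial (Fin n) k} (hf : IsInv α f) (hg : IsInv α g) :
    IsInv α (f + g) := by
  rw [IsInv] at *; rw [map_add, hf, hg, C_add]

theorem inv_neg {f : MvPolynomial (Fin n) k} (hf : IsInv α f) : IsInv α (-f) := by
  rw [IsInv] at *; rw [map_neg, hf, C_neg]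

theorem inv_mul {f g : MvPolynomial (Fin n) k} (hf : IsInv α f) (hg : IsInv α g) :
    IsInv α (f * g) := by
  rw [IsInv] at *; rw [map_mul, hf, hg, C_mul]

theorem inv_const (c : k) : IsInv α (MvPolynomial.C c) := by
  rw [IsInv]
  exact α.φ.commutes c

theorem Ev_inv (f : MvPolynomial (Fin n) k) {g : MvPolynomial (Fin n) k} (hg : IsInv α g) :
    Ev α f g = g := by
  rw [Ev_apply, hg, eval_C]

theorem Ev_comp (f : MvPolynomial (Fin n) k) {g : MvPolynomial (Fin n) k} (hg : IsInv α g)
    (P : MvPolynomial (Fin n) k) : Ev α f (Ev α g P) = Ev α (g + f) P := by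
  rw [Ev_apply α g P]
  have h1 : (Ev α f) ((α.φ P).eval g) =
      eval₂ (Ev α f).toRingHom ((Ev α f) g) (α.φ P) := by
    have := Polynomial.hom_eval₂ (α.φ P) (RingHom.id _) (Ev α f).toRingHom g
    simpa using this
  have h2 : (Ev α f).toRingHom = (evalRingHom f).comp α.φ.toRingHom := by
    ext x
    · simp
    · simp [Ev_apply]
  rw [h1, Ev_inv α f hg, h2, ← eval_map, ← Polynomial.map_map, α.add P, Polynomial.map_comp,
    Polynomial.map_map]
  have h3 : (evalRingHom f).comp (C : MvPolynomial (Fin n) k →+* _) = RingHom.id _ := by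
    ext x <;> simp
  rw [h3, Polynomial.map_id]
  simp [Ev_apply]

theorem Ev_zero (P : MvPolynomial (Fin n) k) : Ev α 0 P = P := by
  rw [Ev_apply]; exact α.zero P

/-- the replica at an invariant `f` -/
noncomputable def rep {f : MvPolynomial (Fin n) k} (hf : IsInv α f) : AutP k n :=
  AlgEquiv.ofAlgHom (Ev α f) (Ev α (-f))
    (AlgHom.ext (fun P => by
      rw [AlgHom.comp_apply, Ev_comp α f (inv_neg α hf), neg_add_cancel, Ev_zero]; rfl))
    (AlgHom.ext (fun P => by
      rw [AlgHom.comp_apply, Ev_comp α (-f) hf, add_neg_cancel, Ev_zero]; rfl))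

theorem rep_apply {f : MvPolynomial (Fin n) k} (hf : IsInv α f) (P : MvPolynomial (Fin n) k) :
    rep α hf P = (α.φ P).eval f := by
  rw [← Ev_apply]; rfl

theorem rep_mem {f : MvPolynomial (Fin n) k} (hf : IsInv α f) : rep α hf ∈ α.replicas :=
  ⟨f, hf, rep_apply α hf⟩

theorem mem_replicas {u : AutP k n} : u ∈ α.replicas ↔ ∃ f, ∃ hf : IsInv α f, u = rep α hf := by
  constructor
  · rintro ⟨f, hf, h⟩
    exact ⟨f, hf, AlgEquiv.ext (fun P => by rw [h P, rep_apply])⟩
  · rintro ⟨f, hf, rfl⟩
    exact rep_mem α hf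

theorem rep_mul {f g : MvPolynomial (Fin n) k} (hf : IsInv α f) (hg : IsInv α g) :
    rep α hf * rep α hg = rep α (inv_add α hg hf) := by
  apply AlgEquiv.ext
  intro P
  rw [AlgEquiv.mul_apply]
  exact Ev_comp α f hg P

theorem rep_congr {f g : MvPolynomial (Fin n) k} (hf : IsInv α f) (hg : IsInv α g) (h : f = g) :
    rep α hf = rep α hg := by subst h; rfl

theorem rep_comm {f g : MvPolynomial (Fin n) k} (hf : IsInv α f) (hg : IsInv α g) :
    Commute (rep α hf) (rep α hg) := by
  rw [Commute, SemiconjBy, rep_mul, rep_mul]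
  exact rep_congr α _ _ (add_comm _ _)

theorem inv_nsmul {f : MvPolynomial (Fin n) k} (hf : IsInv α f) (m : ℕ) :
    IsInv α (MvPolynomial.C (m : k) * f) := inv_mul α (inv_const α _) hf

theorem rep_pow {f : MvPolynomial (Fin n) k} (hf : IsInv α f) (m : ℕ) :
    rep α hf ^ m = rep α (inv_nsmul α hf m) := by
  induction m with
  | zero =>
    rw [pow_zero]
    apply AlgEquiv.ext
    intro P
    have : rep α (inv_nsmul α hf 0) P = Ev α 0 P := by
      rw [rep_apply, Ev_apply]; simp
    rw [this, Ev_zero]; rfl
  | succ m ih =>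
    rw [pow_succ, ih, rep_mul]
    exact rep_congr α _ _ (by push_cast; rw [MvPolynomial.C_add, MvPolynomial.C_1]; ring)

/-- a nontrivial action: only finitely many invariants give a prescribed automorphism -/
theorem fiber_finite {b : MvPolynomial (Fin n) k} (hb : ¬ IsInv α b) (u : AutP k n) :
    {f : MvPolynomial (Fin n) k | (α.φ b).eval f = u b}.Finite := by
  have hne : α.φ b - C (u b) ≠ 0 := by
    intro h
    apply hb
    have h1 : α.φ b = C (u b) := sub_eq_zero.1 h
    have h2 := α.zero b
    rw [h1, eval_C] at h2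
    rw [IsInv, h1, h2]
  refine (Polynomial.finite_setOfPred_isRoot hne).subset ?_
  intro f hf
  have hf : (α.φ b).eval f = u b := hf
  change IsRoot _ f
  rw [IsRoot, eval_sub, hf, eval_C, sub_self]

theorem replicas_infinite {b : MvPolynomial (Fin n) k} (hb : ¬ IsInv α b)
    (hinf : {f : MvPolynomial (Fin n) k | IsInv α f}.Infinite) : α.replicas.Infinite := by
  classical
  intro hfin
  apply hinf
  have : {f : MvPolynomial (Fin n) k | IsInv α f} ⊆
      ⋃ u ∈ α.replicas, {f : MvPolynomial (Fin n) k | (α.φ b).eval f = u b} := by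
    intro f hf
    have hf : IsInv α f := hf
    rw [Set.mem_iUnion₂]
    exact ⟨rep α hf, rep_mem α hf, (rep_apply α hf b).symm⟩
  exact (hfin.biUnion (fun u _ => fiber_finite α hb u)).subset this

/-- the top coefficient is invariant -/
theorem top_inv {P : MvPolynomial (Fin n) k} {m : ℕ} (hm : (α.φ P).natDegree ≤ m) :
    IsInv α ((α.φ P).coeff m) := by
  have h : ((α.φ P).map α.φ.toRingHom).coeff m =
      (((α.φ P).map C).comp (X + C X)).coeff m := by rw [α.add P]
  rw [coeff_map] at h
  have h1 : (((α.φ P).map C).comp (X + C X) : Polynomial (Polynomial (MvPolynomial (Fin n) k))) =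
      taylor X ((α.φ P).map C) := by rw [taylor_apply]
  rw [h1, taylor_coeff] at h
  have h2 : hasseDeriv m ((α.φ P).map C) = C (C ((α.φ P).coeff m)) := by
    ext i : 1
    rw [hasseDeriv_coeff, coeff_map, coeff_C]
    split_ifs with hi
    · subst hi; simp
    · rw [coeff_eq_zero_of_natDegree_lt (by omega), C_0, mul_zero]
  rw [h2, eval_C] at h
  exact h

/-- polynomials of bounded degree in time -/
def Bd (m : ℕ) : Set (MvPolynomial (Fin n) k) := {P | (α.φ P).natDegree < m}

/-- if there are finitely many invariants then few polynomials have bounded degree in time -/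
theorem Bd_card (hfin : {f : MvPolynomial (Fin n) k | IsInv α f}.Finite) (m : ℕ) :
    (Bd α (m + 1)).Finite ∧
      (Bd α (m + 1)).ncard ≤ {f : MvPolynomial (Fin n) k | IsInv α f}.ncard ^ (m + 1) := by
  classical
  set I := {f : MvPolynomial (Fin n) k | IsInv α f} with hI
  -- coefficients of index at most `m` are obtained from the top one by one
  have key : ∀ m : ℕ, (Bd α (m + 1)).Finite ∧ (Bd α (m + 1)).ncard ≤ I.ncard ^ (m + 1) := by
    intro m
    induction m with
    | zero =>
      have h0 : Bd α (0 + 1) ⊆ I := by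
        intro P hP
        have hP : (α.φ P).natDegree < 1 := hP
        have h1 : α.φ P = C ((α.φ P).coeff 0) := eq_C_of_natDegree_eq_zero (by omega)
        have h2 := α.zero P
        rw [h1, eval_C] at h2
        change IsInv α P
        rw [IsInv, h1, h2]
      exact ⟨hfin.subset h0, by simpa using Set.ncard_le_ncard h0 hfin⟩
    | succ m ih =>
      obtain ⟨ih1, ih2⟩ := ih
      -- the map `P ↦ top coefficient`
      let c : MvPolynomial (Fin n) k → MvPolynomial (Fin n) k := fun P => (α.φ P).coeff (m + 1)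
      have hc : ∀ P ∈ Bd α (m + 1 + 1), c P ∈ I := fun P hP =>
        top_inv α (Nat.lt_succ_iff.1 hP)
      -- choose one element in each fibre
      let s : MvPolynomial (Fin n) k → MvPolynomial (Fin n) k := fun f =>
        if h : ∃ P ∈ Bd α (m + 1 + 1), c P = f then h.choose else 0
      have hs : ∀ P ∈ Bd α (m + 1 + 1), s (c P) ∈ Bd α (m + 1 + 1) ∧ c (s (c P)) = c P := by
        intro P hP
        have h : ∃ Q ∈ Bd α (m + 1 + 1), c Q = c P := ⟨P, hP, rfl⟩
        have h1 : s (c P) = h.choose := dif_pos h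
        rw [h1]
        exact h.choose_spec
      let F : MvPolynomial (Fin n) k → MvPolynomial (Fin n) k × MvPolynomial (Fin n) k :=
        fun P => (c P, P - s (c P))
      have hF : Set.MapsTo F (Bd α (m + 1 + 1)) (I ×ˢ Bd α (m + 1)) := by
        intro P hP
        refine ⟨hc P hP, ?_⟩
        obtain ⟨h1, h2⟩ := hs P hP
        change (α.φ (P - s (c P))).natDegree < m + 1
        have h3 : (α.φ (P - s (c P))).natDegree ≤ m + 1 := by
          rw [map_sub]
          refine (natDegree_sub_le _ _).trans (max_le ?_ ?_)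
          · exact Nat.lt_succ_iff.1 hP
          · exact Nat.lt_succ_iff.1 h1
        have h4 : (α.φ (P - s (c P))).coeff (m + 1) = 0 := by
          rw [map_sub, coeff_sub]
          exact sub_eq_zero.2 h2.symm
        rcases Nat.lt_or_ge (α.φ (P - s (c P))).natDegree (m + 1) with h | h
        · exact h
        · have h5 : (α.φ (P - s (c P))).natDegree = m + 1 := le_antisymm h3 h
          rw [← h5] at h4
          have h6 : α.φ (P - s (c P)) = 0 := leadingCoeff_eq_zero.1 h4
          rw [h6, natDegree_zero]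
          omega
      have hinj : Set.InjOn F (Bd α (m + 1 + 1)) := by
        intro P _ Q _ h
        have h1 : c P = c Q := congrArg Prod.fst h
        have h2 : P - s (c P) = Q - s (c Q) := congrArg Prod.snd h
        rw [h1] at h2
        exact sub_left_injective h2
      have hfin2 : (I ×ˢ Bd α (m + 1)).Finite := hfin.prod ih1
      refine ⟨Set.Finite.of_injOn hF hinj hfin2, ?_⟩
      have h7 := Set.ncard_le_ncard_of_injOn F hF hinj hfin2
      rw [Set.ncard_prod] at h7
      calc (Bd α (m + 1 + 1)).ncard ≤ I.ncard * (Bd α (m + 1)).ncard := h7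
        _ ≤ I.ncard * I.ncard ^ (m + 1) := Nat.mul_le_mul_left _ ih2
        _ = I.ncard ^ (m + 1 + 1) := by ring
  exact key m

end Pool.Agent.Work.AffTree
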