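import Pool.Agent.Work.MP_b2cdcf_al_h99.Main
import Pool.Agent.Work.MP_b2cdcf_al_h99.DefsGa

/-!
Acylindrical actions on hyperbolic spaces: abelian groups which are divisible, or infinite of
bounded exponent, have bounded orbits.
-/

set_option autoImplicit false

namespace Pool.Agent.Work.AffTree

section geom

variable {X : Type*} [MetricSpace X] {δ : ℝ}

theorem hfour (hX : IsHyp X δ) (x y z w : X) :
    dist x z + dist y w ≤ max (dist x y + dist z w) (dist y z + dist x w) + 2 * δ := by
  have h := hX.hyp x y z w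
  have h1 := dist_comm z w
  have h' : min ((dist x w + dist y w - dist x y) / 2) ((dist y w + dist z w - dist y z) / 2)
      ≤ (dist x w + dist z w - dist x z) / 2 + δ := by linarith
  rcases min_le_iff.1 h' with h | h
  · have := le_max_left (dist x y + dist z w) (dist y z + dist x w)
    linarith
  · have := le_max_right (dist x y + dist z w) (dist y z + dist x w)
    linarith

theorem hmid (hX : IsHyp X δ) (x y : X) :
    ∃ m, dist x m = dist x y / 2 ∧ dist m y = dist x y / 2 := by
  obtain ⟨γ, g0, g1, g⟩ := hX.geod x y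
  have h0 : 0 ≤ dist x y := dist_nonneg
  refine ⟨γ (dist x y / 2), ?_, ?_⟩
  · have := g 0 (dist x y / 2) le_rfl h0 (by linarith) (by linarith)
    rw [g0] at this
    rw [this, zero_sub, abs_neg, abs_of_nonneg (by linarith)]
  · have := g (dist x y / 2) (dist x y) (by linarith) (by linarith) h0 le_rfl
    rw [g1] at this
    rw [this, abs_sub_comm, abs_of_nonneg (by linarith)]
    ring

end geom

section action

variable {X : Type*} [MetricSpace X] {δ : ℝ} {Γ : Type*} [Group Γ] [MulAction Γ X]
  [IsIsometricSMul Γ X]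

/-- an isometry moving the ends of a segment by at most `r` moves the midpoint by at most
`r + 2 δ` -/
theorem mid_move (hX : IsHyp X δ) {x z y : X} {h : Γ} {r : ℝ}
    (hx : dist x y = dist x z / 2) (hz : dist y z = dist x z / 2)
    (h1 : dist x (h • x) ≤ r) (h2 : dist z (h • z) ≤ r) : dist y (h • y) ≤ r + 2 * δ := by
  have e1 : dist (h • x) (h • y) = dist x y := dist_smul h x y
  have e2 : dist (h • y) (h • z) = dist y z := dist_smul h y z
  have t1 := dist_triangle x (h • x) (h • y)
  have t2 := dist_triangle (h • y) (h • z) z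
  have c1 := dist_comm (h • z) z
  have f := hfour hX y x (h • y) z
  have c2 := dist_comm y x
  rcases le_total (dist y x + dist (h • y) z) (dist x (h • y) + dist y z) with h3 | h3
  · rw [max_eq_right h3] at f; linarith
  · rw [max_eq_left h3] at f; linarith

/-- two nearly equal sums in the four point inequality -/
theorem pair_close (hX : IsHyp X δ) {u v x x' : X}
    (h1 : dist u v + dist x x' + 2 * δ < dist u x' + dist v x)
    (h2 : dist u v + dist x x' + 2 * δ < dist u x + dist v x') :
    |(dist u x' - dist u x) - (dist v x' - dist v x)| ≤ 2 * δ := by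
  have f1 := hfour hX u v x' x
  have f2 := hfour hX u v x x'
  have c1 := dist_comm x' x
  rw [abs_le]
  constructor
  · rcases le_total (dist u v + dist x x') (dist v x + dist u x') with h | h
    · rw [max_eq_right h] at f2; linarith
    · rw [max_eq_left h] at f2; linarith
  · rcases le_total (dist u v + dist x' x) (dist v x' + dist u x) with h | h
    · rw [max_eq_right h] at f1; linarith
    · rw [max_eq_left h] at f1; linarith

theorem midpoint_small (hX : IsHyp X δ) (hδ : 0 ≤ δ) {x z y : X} {b : Γ} {r D : ℝ} {m : ℕ}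
    (hm : 1 ≤ m) (hx : dist x y = dist x z / 2) (hz : dist y z = dist x z / 2)
    (h1 : ∀ j ≤ m, dist x (b ^ j • x) ≤ r) (h2 : ∀ j ≤ m, dist z (b ^ j • z) ≤ r)
    (hL : 4 * r + 4 * δ < dist x z) (hD1 : dist x (b ^ m • x) ≤ D)
    (hD2 : dist z (b ^ m • z) ≤ D) : dist y (b • y) ≤ D / m + 6 * δ := by
  set L := dist x z with hLdef
  have hr : 0 ≤ r := by
    have := h1 0 (Nat.zero_le _)
    simpa using this
  set f : X → ℝ := fun u => (dist u x - dist u z) / 2 with hf
  have hmv : ∀ j ≤ m, dist y (b ^ j • y) ≤ r + 2 * δ := fun j hj =>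
    mid_move hX hx hz (h1 j hj) (h2 j hj)
  have dx : ∀ j ≤ m, |dist (b ^ j • y) x - L / 2| ≤ dist x (b ^ j • x) := by
    intro j _
    have e1 : dist (b ^ j • x) (b ^ j • y) = dist x y := dist_smul _ x y
    have t1 := dist_triangle x (b ^ j • x) (b ^ j • y)
    have t2 := dist_triangle (b ^ j • x) x (b ^ j • y)
    have c1 := dist_comm (b ^ j • x) x
    have c2 := dist_comm (b ^ j • y) x
    rw [abs_le]; constructor <;> linarith
  have dz : ∀ j ≤ m, |dist (b ^ j • y) z - L / 2| ≤ dist z (b ^ j • z) := by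
    intro j _
    have e1 : dist (b ^ j • y) (b ^ j • z) = dist y z := dist_smul _ y z
    have t1 := dist_triangle (b ^ j • y) (b ^ j • z) z
    have t2 := dist_triangle (b ^ j • y) z (b ^ j • z)
    have c1 := dist_comm (b ^ j • z) z
    rw [abs_le]; constructor <;> linarith
  -- the increments of `f` along the orbit are nearly constant
  have hinc : ∀ j, j + 1 ≤ m →
      |(f (b ^ (j + 1) • y) - f (b ^ j • y)) - (f (b • y) - f y)| ≤ 2 * δ := by
    intro j hj
    have e1 : dist (b ^ (j + 1) • y) x = dist (b ^ j • y) (b⁻¹ • x) := by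
      rw [← dist_smul b (b ^ j • y) (b⁻¹ • x), smul_smul, smul_smul, mul_inv_cancel, one_smul,
        ← pow_succ']
    have e2 : dist (b ^ (j + 1) • y) z = dist (b ^ j • y) (b⁻¹ • z) := by
      rw [← dist_smul b (b ^ j • y) (b⁻¹ • z), smul_smul, smul_smul, mul_inv_cancel, one_smul,
        ← pow_succ']
    have e3 : dist (b • y) x = dist y (b⁻¹ • x) := by
      rw [← dist_smul b y (b⁻¹ • x), smul_smul, mul_inv_cancel, one_smul]
    have e4 : dist (b • y) z = dist y (b⁻¹ • z) := by
      rw [← dist_smul b y (b⁻¹ • z), smul_smul, mul_inv_cancel, one_smul]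
    have e5 : dist x (b⁻¹ • x) = dist x (b • x) := by
      rw [← dist_smul b x (b⁻¹ • x), smul_smul, mul_inv_cancel, one_smul, dist_comm]
    have e6 : dist z (b⁻¹ • z) = dist z (b • z) := by
      rw [← dist_smul b z (b⁻¹ • z), smul_smul, mul_inv_cancel, one_smul, dist_comm]
    have g1 := h1 1 hm
    have g2 := h2 1 hm
    rw [pow_one] at g1 g2
    have a1 := abs_le.1 (dx j (by omega))
    have a2 := abs_le.1 (dx (j + 1) hj)
    have a3 := abs_le.1 (dz j (by omega))
    have a4 := abs_le.1 (dz (j + 1) hj)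
    have a5 := abs_le.1 (dx 1 hm)
    have a6 := abs_le.1 (dz 1 hm)
    rw [pow_one] at a5 a6
    have b1 := h1 j (by omega)
    have b2 := h1 (j + 1) hj
    have b3 := h2 j (by omega)
    have b4 := h2 (j + 1) hj
    have b5 := hmv j (by omega)
    have c1 := dist_comm (b ^ j • y) y
    have c2 := dist_comm y x
    have p1 := pair_close hX (u := b ^ j • y) (v := y) (x := x) (x' := b⁻¹ • x)
      (by rw [← e1]; linarith) (by rw [← e3]; linarith)
    have p2 := pair_close hX (u := b ^ j • y) (v := y) (x := z) (x' := b⁻¹ • z)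
      (by rw [← e2]; linarith) (by rw [← e4]; linarith)
    rw [← e1, ← e3] at p1
    rw [← e2, ← e4] at p2
    have q1 := abs_le.1 p1
    have q2 := abs_le.1 p2
    simp only [hf]
    rw [abs_le]; constructor <;> linarith
  have hsum : ∀ j ≤ m, |f (b ^ j • y) - f y - j * (f (b • y) - f y)| ≤ j * (2 * δ) := by
    intro j
    induction j with
    | zero => intro _; simp
    | succ j ih =>
      intro hj
      have i1 := abs_le.1 (ih (by omega))
      have i2 := abs_le.1 (hinc j hj)
      push_cast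
      rw [abs_le]; constructor <;> linarith
  have hfy : f y = 0 := by
    simp only [hf]
    rw [dist_comm y x, hx, hz]; ring
  have hm0 : (0 : ℝ) < m := by exact_mod_cast hm
  have hfm : |f (b ^ m • y)| ≤ D := by
    have a1 := abs_le.1 (dx m le_rfl)
    have a2 := abs_le.1 (dz m le_rfl)
    simp only [hf]
    rw [abs_le]; constructor <;> linarith
  have hfb : |f (b • y)| ≤ D / m + 2 * δ := by
    have h := abs_le.1 (hsum m le_rfl)
    have h' := abs_le.1 hfm
    rw [hfy] at h
    have e : (D / m + 2 * δ) * m = D + m * (2 * δ) := by field_simp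
    rw [abs_le]
    constructor
    · have : -(D / m + 2 * δ) * m ≤ f (b • y) * m := by
        have : -(D / m + 2 * δ) * m = -(D + m * (2 * δ)) := by rw [← e]; ring
        rw [this]; linarith
      exact le_of_mul_le_mul_right this hm0
    · have : f (b • y) * m ≤ (D / m + 2 * δ) * m := by rw [e]; linarith
      exact le_of_mul_le_mul_right this hm0
  -- the image of the midpoint is near the segment
  have g1 := h1 1 hm
  have g2 := h2 1 hm
  rw [pow_one] at g1 g2
  have w1 : dist (b • y) (b • x) = L / 2 := by rw [dist_smul, dist_comm, hx]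
  have w2 : dist (b • y) (b • z) = L / 2 := by rw [dist_smul, hz]
  have w3 : dist (b • x) (b • z) = L := dist_smul b x z
  have k1 := hfour hX (b • y) (b • x) x (b • z)
  have k2 := hfour hX (b • y) x z (b • z)
  have t1 := dist_triangle x (b • z) z
  have t2 := dist_triangle (b • y) (b • x) x
  have c1 := dist_comm (b • x) x
  have c2 := dist_comm (b • z) z
  have s1 : dist (b • y) x ≤ dist x (b • z) - L / 2 + 2 * δ := by
    rcases le_total (dist (b • y) (b • x) + dist x (b • z)) (dist (b • x) x + dist (b • y) (b • z))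
      with h | h
    · rw [max_eq_right h] at k1; linarith
    · rw [max_eq_left h] at k1; linarith
  have s2 : dist (b • y) z ≤ 3 * L / 2 - dist x (b • z) + 2 * δ := by
    rcases le_total (dist (b • y) x + dist z (b • z)) (dist x z + dist (b • y) (b • z))
      with h | h
    · rw [max_eq_right h] at k2; linarith
    · rw [max_eq_left h] at k2; linarith
  have hfb' := abs_le.1 hfb
  simp only [hf] at hfb'
  have k3 := hfour hX (b • y) x y z
  have c3 := dist_comm y (b • y)
  have c4 := dist_comm x y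
  rcases le_total (dist (b • y) x + dist y z) (dist x y + dist (b • y) z) with h | h
  · rw [max_eq_right h] at k3; linarith
  · rw [max_eq_left h] at k3; linarith

/-- Core lemma: a commuting set `A` with sufficiently many elements which have a small power
has bounded orbits. -/
theorem comm_bdd (hX : IsHyp X δ) (hδ : 0 ≤ δ) {R : ℝ} {N : ℕ}
    (hRN : ∀ x y : X, R ≤ dist x y →
      {g : Γ | dist x (g • x) ≤ 1 + 6 * δ ∧ dist y (g • y) ≤ 1 + 6 * δ}.Finite ∧
      {g : Γ | dist x (g • x) ≤ 1 + 6 * δ ∧ dist y (g • y) ≤ 1 + 6 * δ}.ncard ≤ N)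
    (A : Set Γ) (hA : ∀ a ∈ A, ∀ b ∈ A, Commute a b) (x : X) (F : Finset Γ)
    (hFA : ∀ b ∈ F, b ∈ A) (hFN : N < F.card) (m : Γ → ℕ) (hm : ∀ b ∈ F, 1 ≤ m b)
    (hF : ∀ b ∈ F, dist x (b ^ (m b) • x) ≤ m b) :
    ∃ C : ℝ, ∀ a ∈ A, dist x (a • x) ≤ C := by
  classical
  by_contra hcon
  push Not at hcon
  -- a common bound `r`
  obtain ⟨r, hr⟩ : ∃ r : ℝ, ∀ b ∈ F, ∀ j ≤ m b, dist x (b ^ j • x) ≤ r := by
    refine ⟨∑ b ∈ F, ∑ j ∈ Finset.range (m b + 1), dist x (b ^ j • x), fun b hb j hj => ?_⟩
    have h1 : dist x (b ^ j • x) ≤ ∑ j ∈ Finset.range (m b + 1), dist x (b ^ j • x) :=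
      Finset.single_le_sum (f := fun j => dist x (b ^ j • x)) (fun _ _ => dist_nonneg)
        (Finset.mem_range.2 (by omega))
    have h2 := Finset.single_le_sum (f := fun b => ∑ j ∈ Finset.range (m b + 1), dist x (b ^ j • x))
      (fun _ _ => Finset.sum_nonneg (fun _ _ => dist_nonneg)) hb
    exact h1.trans h2
  obtain ⟨a, haA, ha⟩ := hcon (4 * r + 4 * δ)
  obtain ⟨y, hy1, hy2⟩ := hmid hX x (a • x)
  have hcomm : ∀ b ∈ A, ∀ c ∈ A, ∀ (j : ℕ) (q : X),
      dist (c • q) (b ^ j • (c • q)) = dist q (b ^ j • q) := by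
    intro b hb c hc j q
    have h1 : b ^ j • (c • q) = c • (b ^ j • q) := by
      rw [smul_smul, smul_smul, ((hA b hb c hc).pow_left j).eq]
    rw [h1]
    exact dist_smul c _ _
  have hsmall : ∀ b ∈ F, dist y (b • y) ≤ 1 + 6 * δ := by
    intro b hb
    have hmb : (0 : ℝ) < m b := by exact_mod_cast hm b hb
    have h := midpoint_small hX hδ (x := x) (z := a • x) (y := y) (b := b) (r := r)
      (D := m b) (hm b hb) hy1 hy2 (hr b hb)
      (fun j hj => by rw [hcomm b (hFA b hb) a haA j x]; exact hr b hb j hj) ha (hF b hb)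
      (by rw [hcomm b (hFA b hb) a haA (m b) x]; exact hF b hb)
    rwa [div_self hmb.ne'] at h
  obtain ⟨a', ha'A, ha'⟩ := hcon (R + 2 * dist x y)
  have hfar : R ≤ dist y (a' • y) := by
    have t1 := dist_triangle x y (a' • x)
    have t2 := dist_triangle y (a' • y) (a' • x)
    have e1 : dist (a' • y) (a' • x) = dist y x := dist_smul a' y x
    have c1 := dist_comm y x
    linarith
  obtain ⟨h1, h2⟩ := hRN y (a' • y) hfar
  have h3 : (F : Set Γ) ⊆ {g : Γ | dist y (g • y) ≤ 1 + 6 * δ ∧
      dist (a' • y) (g • (a' • y)) ≤ 1 + 6 * δ} := by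
    intro b hb
    refine ⟨hsmall b hb, ?_⟩
    have := hcomm b (hFA b hb) a' ha'A 1 y
    rw [pow_one] at this
    rw [this]
    exact hsmall b hb
  have h4 := Set.ncard_le_ncard h3 h1
  rw [Set.ncard_coe_finset] at h4
  omega

/-- infinite commuting sets of bounded exponent have bounded orbits -/
theorem torsion_bdd (hX : IsHyp X δ) (hδ : 0 ≤ δ) (hAc : Acyl Γ X) (A : Set Γ)
    (hA : ∀ a ∈ A, ∀ b ∈ A, Commute a b) (hinf : A.Infinite) {p : ℕ} (hp : 1 ≤ p)
    (hpow : ∀ a ∈ A, a ^ p = 1) (x : X) : ∃ C : ℝ, ∀ a ∈ A, dist x (a • x) ≤ C := by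
  obtain ⟨R, N, hRN⟩ := hAc (1 + 6 * δ) (by positivity)
  obtain ⟨F, hF, hFc⟩ := hinf.exists_subset_card_eq (N + 1)
  refine comm_bdd hX hδ hRN A hA x F (fun b hb => hF hb) (by omega) (fun _ => p)
    (fun _ _ => hp) (fun b hb => ?_)
  rw [hpow b (hF hb), one_smul, dist_self]
  positivity

/-- commuting sets which contain distinct roots of all orders of one element have bounded
orbits -/
theorem divisible_bdd (hX : IsHyp X δ) (hδ : 0 ≤ δ) (hAc : Acyl Γ X) (A : Set Γ)
    (hA : ∀ a ∈ A, ∀ b ∈ A, Commute a b) (b : Γ) (c : ℕ → Γ) (hc : ∀ i, 1 ≤ i → c i ∈ A)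
    (hci : ∀ i, 1 ≤ i → c i ^ i = b) (hinj : ∀ i j, 1 ≤ i → 1 ≤ j → c i = c j → i = j) (x : X) :
    ∃ C : ℝ, ∀ a ∈ A, dist x (a • x) ≤ C := by
  classical
  obtain ⟨R, N, hRN⟩ := hAc (1 + 6 * δ) (by positivity)
  obtain ⟨M, hM⟩ := exists_nat_ge (dist x (b • x))
  set I : Finset ℕ := Finset.Ico (M + 1) (M + 1 + (N + 1)) with hI
  have hI1 : ∀ i ∈ I, 1 ≤ i ∧ M ≤ i := fun i hi => by
    have := Finset.mem_Ico.1 hi; omega
  have hinjI : Set.InjOn c I := fun i hi j hj h => hinj i j (hI1 i hi).1 (hI1 j hj).1 h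
  -- the exponent as a function of the element
  let m : Γ → ℕ := fun g => if h : ∃ i ∈ I, c i = g then h.choose else 1
  have hmc : ∀ i ∈ I, m (c i) = i := by
    intro i hi
    have h : ∃ j ∈ I, c j = c i := ⟨i, hi, rfl⟩
    have h1 : m (c i) = h.choose := dif_pos h
    rw [h1]
    exact hinjI h.choose_spec.1 hi h.choose_spec.2
  refine comm_bdd hX hδ hRN A hA x (I.image c) ?_ ?_ m ?_ ?_
  · intro g hg
    obtain ⟨i, hi, rfl⟩ := Finset.mem_image.1 hg
    exact hc i (hI1 i hi).1
  · rw [Finset.card_image_of_injOn hinjI, hI, Nat.card_Ico]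
    omega
  · intro g hg
    obtain ⟨i, hi, rfl⟩ := Finset.mem_image.1 hg
    rw [hmc i hi]
    exact (hI1 i hi).1
  · intro g hg
    obtain ⟨i, hi, rfl⟩ := Finset.mem_image.1 hg
    rw [hmc i hi, hci i (hI1 i hi).1]
    refine hM.trans ?_
    exact_mod_cast (hI1 i hi).2

end action

end Pool.Agent.Work.AffTree
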