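import Pool.Agent.Work.MP_b2cdcf_al_h99.Ga
import Pool.Agent.Work.MP_b2cdcf_al_h99.Hyp

/-!
An additive group action on affine `n`-space, `n ≥ 2`, has infinitely many invariants; the
theorem on acylindrical actions.
-/

set_option autoImplicit false

namespace Pool.Agent.Work.AffTree

universe u v

open Polynomial

section inf

variable {k : Type u} [Field k] {n : ℕ} (α : GaAction k n)

theorem mono_eq (i0 i1 : Fin n) (c : k) (i j : ℕ) :
    (MvPolynomial.C c * (MvPolynomial.X i0 ^ i * MvPolynomial.X i1 ^ j) :
      MvPolynomial (Fin n) k) =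
    MvPolynomial.monomial (Finsupp.single i0 i + Finsupp.single i1 j) c := by
  rw [MvPolynomial.X_pow_eq_monomial, MvPolynomial.X_pow_eq_monomial, MvPolynomial.monomial_mul,
    MvPolynomial.C_mul_monomial, mul_one, mul_one]

theorem inv_infinite (hn : 2 ≤ n) : {f : MvPolynomial (Fin n) k | IsInv α f}.Infinite := by
  classical
  intro hfin
  set I := {f : MvPolynomial (Fin n) k | IsInv α f} with hI
  have hCinj : Function.Injective (fun c : k => (MvPolynomial.C c : MvPolynomial (Fin n) k)) :=
    MvPolynomial.C_injective _ _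
  have hrange : Set.range (fun c : k => (MvPolynomial.C c : MvPolynomial (Fin n) k)) ⊆ I := by
    rintro _ ⟨c, rfl⟩; exact inv_const α c
  -- the field is finite
  have : (Set.range (fun c : k => (MvPolynomial.C c : MvPolynomial (Fin n) k))).Finite :=
    hfin.subset hrange
  have hk : Finite k := by
    have := this.to_subtype
    exact Finite.of_injective_finite_range hCinj
  have := Fintype.ofFinite k
  have hq : 2 ≤ Fintype.card k := by
    have := Fintype.one_lt_card (α := k)
    omega
  let i0 : Fin n := ⟨0, by omega⟩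
  let i1 : Fin n := ⟨1, by omega⟩
  have h01 : i0 ≠ i1 := by
    intro h
    have := congrArg Fin.val h
    simp [i0, i1] at this
  set M := (α.φ (MvPolynomial.X i0)).natDegree + (α.φ (MvPolynomial.X i1)).natDegree with hM
  -- many polynomials of small degree
  have count : ∀ e : ℕ, Fintype.card k ^ (e * e) ≤ I.ncard ^ (e * M + 1) := by
    intro e
    obtain ⟨hB1, hB2⟩ := Bd_card α hfin (e * M)
    let g : (Fin e × Fin e → k) → MvPolynomial (Fin n) k := fun c =>
      ∑ p : Fin e × Fin e, MvPolynomial.C (c p) *
        (MvPolynomial.X i0 ^ p.1.val * MvPolynomial.X i1 ^ p.2.val)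
    have hg1 : ∀ c, g c ∈ Bd α (e * M + 1) := by
      intro c
      change (α.φ (g c)).natDegree < e * M + 1
      refine Nat.lt_succ_iff.2 ?_
      rw [map_sum]
      refine natDegree_sum_le_of_forall_le _ _ (fun p _ => ?_)
      rw [map_mul, map_mul, map_pow, map_pow, inv_const α (c p)]
      have b1 := p.1.isLt
      have b2 := p.2.isLt
      calc (C (MvPolynomial.C (c p)) * (α.φ (MvPolynomial.X i0) ^ p.1.val *
            α.φ (MvPolynomial.X i1) ^ p.2.val)).natDegree
          ≤ (α.φ (MvPolynomial.X i0) ^ p.1.val * α.φ (MvPolynomial.X i1) ^ p.2.val).natDegree :=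
            natDegree_C_mul_le _ _
        _ ≤ (α.φ (MvPolynomial.X i0) ^ p.1.val).natDegree +
            (α.φ (MvPolynomial.X i1) ^ p.2.val).natDegree := natDegree_mul_le
        _ ≤ p.1.val * (α.φ (MvPolynomial.X i0)).natDegree +
            p.2.val * (α.φ (MvPolynomial.X i1)).natDegree :=
            add_le_add natDegree_pow_le natDegree_pow_le
        _ ≤ e * (α.φ (MvPolynomial.X i0)).natDegree +
            e * (α.φ (MvPolynomial.X i1)).natDegree :=
            add_le_add (Nat.mul_le_mul_right _ b1.le) (Nat.mul_le_mul_right _ b2.le)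
        _ = e * M := by rw [hM]; ring
    have hg2 : Function.Injective g := by
      intro c c' h
      funext p
      have hco : ∀ d : Fin e × Fin e → k, MvPolynomial.coeff
          (Finsupp.single i0 p.1.val + Finsupp.single i1 p.2.val) (g d) = d p := by
        intro d
        simp only [g]
        rw [MvPolynomial.coeff_sum]
        rw [Finset.sum_eq_single p]
        · rw [mono_eq, MvPolynomial.coeff_monomial, if_pos rfl]
        · intro p' _ hp'
          rw [mono_eq, MvPolynomial.coeff_monomial, if_neg]
          intro heq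
          apply hp'
          have a0 := DFunLike.congr_fun heq i0
          have a1 := DFunLike.congr_fun heq i1
          simp only [Finsupp.add_apply, Finsupp.single_apply, if_neg h01, if_neg h01.symm,
            if_true, add_zero, zero_add] at a0 a1
          exact Prod.ext (Fin.ext a0) (Fin.ext a1)
        · intro h; exact absurd (Finset.mem_univ p) h
      rw [← hco c, ← hco c', h]
    have h1 : (Set.range g).ncard ≤ (Bd α (e * M + 1)).ncard :=
      Set.ncard_le_ncard (by rintro _ ⟨c, rfl⟩; exact hg1 c) hB1
    have h2 : (Set.range g).ncard = Fintype.card k ^ (e * e) := by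
      rw [← Set.image_univ, Set.ncard_image_of_injective _ hg2, Set.ncard_univ,
        Nat.card_eq_fintype_card, Fintype.card_fun, Fintype.card_prod, Fintype.card_fin]
    rw [← h2]
    exact h1.trans hB2
  obtain ⟨s, hs⟩ : ∃ s : ℕ, I.ncard ≤ 2 ^ s := ⟨I.ncard, Nat.lt_two_pow_self.le⟩
  set e := s * M + s + 1 with he
  have h := count e
  have h1 : 2 ^ (e * e) ≤ 2 ^ (s * (e * M + 1)) := by
    calc 2 ^ (e * e) ≤ Fintype.card k ^ (e * e) := Nat.pow_le_pow_left hq _
      _ ≤ I.ncard ^ (e * M + 1) := h
      _ ≤ (2 ^ s) ^ (e * M + 1) := Nat.pow_le_pow_left hs _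
      _ = 2 ^ (s * (e * M + 1)) := by rw [pow_mul]
  have h2 : e * e ≤ s * (e * M + 1) := (Nat.pow_le_pow_iff_right (by norm_num)).1 h1
  have h3 : s * (e * M + 1) < e * e := by
    have e1 : e * e = e * (s * M) + e * s + e := by
      conv_lhs => rw [he]
      rw [← he]; ring
    have e2 : s * (e * M + 1) = e * (s * M) + s := by ring
    have e3 : s ≤ e * s := Nat.le_mul_of_pos_left _ (by omega)
    have e4 : 0 < e := by omega
    omega
  omega

end inf

section final

variable {k : Type u} [Field k] {n : ℕ} {Γ : Subgroup (AutP k n)} {X : Type v} [MetricSpace X]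
  [MulAction Γ X] [IsIsometricSMul Γ X] {δ : ℝ}

/-- replicas have bounded orbits -/
theorem replicas_bdd (hX : IsHyp X δ) (hδ : 0 ≤ δ) (hA : Acyl Γ X) (hn : 2 ≤ n)
    (α : GaAction k n) (hα : ∃ P, α.φ P ≠ C P) (hU : ∀ u ∈ α.replicas, u ∈ Γ) (x : X) :
    ∃ c : ℝ, ∀ g : Γ, (g : AutP k n) ∈ α.replicas → dist x (g • x) ≤ c := by
  obtain ⟨b, hb⟩ := hα
  have hb : ¬ IsInv α b := hb
  set A : Set Γ := {g | (g : AutP k n) ∈ α.replicas} with hAdef
  have hcomm : ∀ a ∈ A, ∀ b ∈ A, Commute a b := by
    intro a ha b hb
    obtain ⟨f, hf, h1⟩ := (mem_replicas α).1 ha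
    obtain ⟨g, hg, h2⟩ := (mem_replicas α).1 hb
    refine Subtype.ext ?_
    change (a : AutP k n) * (b : AutP k n) = (b : AutP k n) * (a : AutP k n)
    rw [h1, h2]
    exact (rep_comm α hf hg).eq
  have hinfU : α.replicas.Infinite := replicas_infinite α hb (inv_infinite α hn)
  have hinf : A.Infinite := by
    intro hfin
    apply hinfU
    refine (hfin.image (fun g : Γ => (g : AutP k n))).subset ?_
    intro u hu
    exact ⟨⟨u, hU u hu⟩, hu, rfl⟩
  obtain ⟨p, hp⟩ := CharP.exists k
  rcases Nat.eq_zero_or_pos p with rfl | hpos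
  · have hk0 : CharZero k := CharP.charP_to_charZero k
    have hci : ∀ i : ℕ, IsInv α (MvPolynomial.C ((i : k)⁻¹) : MvPolynomial (Fin n) k) :=
      fun i => inv_const α _
    have h1 : IsInv α (MvPolynomial.C (1 : k) : MvPolynomial (Fin n) k) := inv_const α _
    let c : ℕ → Γ := fun i => ⟨rep α (hci i), hU _ (rep_mem α (hci i))⟩
    let b1 : Γ := ⟨rep α h1, hU _ (rep_mem α h1)⟩
    obtain ⟨C, hC⟩ := divisible_bdd hX hδ hA A hcomm b1 c (fun i _ => rep_mem α (hci i))
      (fun i hi => by
        refine Subtype.ext ?_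
        change rep α (hci i) ^ i = rep α h1
        rw [rep_pow]
        refine rep_congr α _ _ ?_
        have hi0 : (i : k) ≠ 0 := by exact_mod_cast (by omega : i ≠ 0)
        rw [← MvPolynomial.C_mul, mul_inv_cancel₀ hi0])
      (fun i j hi hj h => by
        have h2 : rep α (hci i) = rep α (hci j) := congrArg Subtype.val h
        by_contra hij
        have hi0 : (i : k) ≠ 0 := by exact_mod_cast (by omega : i ≠ 0)
        have hj0 : (j : k) ≠ 0 := by exact_mod_cast (by omega : j ≠ 0)
        have hd0 : ((i : k)⁻¹ - (j : k)⁻¹) ≠ 0 := by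
          intro h
          have := inv_injective (sub_eq_zero.1 h)
          exact hij (by exact_mod_cast this)
        -- the difference is a time at which the action is trivial
        have hd : IsInv α (MvPolynomial.C ((i : k)⁻¹ - (j : k)⁻¹) :
            MvPolynomial (Fin n) k) := inv_const α _
        have h3 : rep α hd = 1 := by
          have h4 : rep α hd * rep α (hci j) = rep α (hci i) := by
            rw [rep_mul]
            refine rep_congr α _ _ ?_
            rw [← MvPolynomial.C_add]
            congr 1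
            ring
          rw [h2] at h4
          exact mul_eq_right.1 h4
        have h5 : {f : MvPolynomial (Fin n) k | (α.φ b).eval f = (1 : AutP k n) b}.Infinite := by
          have hinj : Function.Injective (fun m : ℕ =>
              (MvPolynomial.C ((m : k) * ((i : k)⁻¹ - (j : k)⁻¹)) :
                MvPolynomial (Fin n) k)) := by
            intro m m' h
            have := MvPolynomial.C_injective _ _ h
            have := mul_right_cancel₀ hd0 this
            exact_mod_cast this
          refine (Set.infinite_range_of_injective hinj).mono ?_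
          rintro _ ⟨m, rfl⟩
          change (α.φ b).eval (MvPolynomial.C ((m : k) * ((i : k)⁻¹ - (j : k)⁻¹))) =
            (1 : AutP k n) b
          have h6 := rep_pow α hd m
          rw [h3, one_pow] at h6
          rw [h6, rep_apply, MvPolynomial.C_mul]
        exact h5 (fiber_finite α hb 1)) x
    exact ⟨C, fun g hg => hC g hg⟩
  · obtain ⟨C, hC⟩ := torsion_bdd hX hδ hA A hcomm hinf (p := p) hpos (fun a ha => by
      obtain ⟨f, hf, h1⟩ := (mem_replicas α).1 ha
      refine Subtype.ext ?_
      change (a : AutP k n) ^ p = 1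
      rw [h1, rep_pow]
      apply AlgEquiv.ext
      intro P
      rw [rep_apply, CharP.cast_eq_zero, MvPolynomial.C_0, zero_mul, α.zero]
      rfl) x
    exact ⟨C, fun g hg => hC g hg⟩

/-- ... and so have all elements which normalise the group of replicas -/
theorem normaliser_bdd (hX : IsHyp X δ) (hδ : 0 ≤ δ) (hA : Acyl Γ X) (hn : 2 ≤ n)
    (α : GaAction k n) (hα : ∃ P, α.φ P ≠ C P) (hU : ∀ u ∈ α.replicas, u ∈ Γ) (x : X) :
    ∃ c : ℝ, ∀ g : Γ, (∀ u ∈ α.replicas, (g : AutP k n)⁻¹ * u * (g : AutP k n) ∈ α.replicas) →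
      dist x (g • x) ≤ c := by
  obtain ⟨c1, hc1⟩ := replicas_bdd hX hδ hA hn α hα hU x
  obtain ⟨c2, hc2⟩ := norm_bdd (X := X) hA c1
  have hb := hα
  obtain ⟨b, hb⟩ := hb
  have hb : ¬ IsInv α b := hb
  have hinfU : α.replicas.Infinite := replicas_infinite α hb (inv_infinite α hn)
  have hinf : {g : Γ | (g : AutP k n) ∈ α.replicas}.Infinite := by
    intro hfin
    apply hinfU
    refine (hfin.image (fun g : Γ => (g : AutP k n))).subset ?_
    intro u hu
    exact ⟨⟨u, hU u hu⟩, hu, rfl⟩
  exact ⟨c2, fun g hg => hc2 x _ hinf g (fun v hv => ⟨hc1 v hv, hc1 _ (hg _ hv)⟩)⟩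

end final

end Pool.Agent.Work.AffTree
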