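import Pool.Agent.Work.MP_b2cdcf_al_h99.Tree
import Pool.Agent.Work.MP_b2cdcf_al_h99.Elem

set_option autoImplicit false

namespace Pool.Agent.Work.AffTree

open MvPolynomial

universe u v

section acyl

variable {X : Type*} [MetricSpace X] {Γ : Type*} [Group Γ] [MulAction Γ X] [IsIsometricSMul Γ X]

theorem bdd_of_loc (hA : Acyl Γ X) (V : Set Γ) (hV : V.Infinite)
    (hloc : ∀ F : Finset Γ, (∀ g ∈ F, g ∈ V) → ∃ p : X, ∀ g ∈ F, g • p = p) (x : X) :
    ∃ C : ℝ, ∀ h ∈ V, dist x (h • x) ≤ C := by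
  classical
  obtain ⟨R, N, hRN⟩ := hA 1 one_pos
  obtain ⟨F, hF, hFc⟩ := hV.exists_subset_card_eq (N + 1)
  obtain ⟨p0, hp0⟩ := hloc F (fun g hg => hF hg)
  refine ⟨2 * dist x p0 + 2 * |R|, fun h hh => ?_⟩
  obtain ⟨q, hq⟩ := hloc (insert h F) (fun g hg => by
    rcases Finset.mem_insert.1 hg with rfl | h'
    · exact hh
    · exact hF h')
  have hd : dist p0 q < R := by
    by_contra hcon
    push Not at hcon
    obtain ⟨h1, h2⟩ := hRN p0 q hcon
    have h3 : (F : Set Γ) ⊆ {g : Γ | dist p0 (g • p0) ≤ 1 ∧ dist q (g • q) ≤ 1} := by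
      intro g hg
      refine ⟨?_, ?_⟩
      · rw [hp0 g hg, dist_self]; exact zero_le_one
      · rw [hq g (Finset.mem_insert_of_mem hg), dist_self]; exact zero_le_one
    have h4 := Set.ncard_le_ncard h3 h1
    rw [Set.ncard_coe_finset, hFc] at h4
    omega
  have hhq : h • q = q := hq h (Finset.mem_insert_self _ _)
  have e1 : dist q (h • p0) = dist q p0 := by
    conv_lhs => rw [← hhq]
    exact dist_smul h q p0
  have t1 := dist_triangle p0 q (h • p0)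
  have e2 : dist (h • p0) (h • x) = dist p0 x := dist_smul h p0 x
  have t2 := dist_triangle x p0 (h • x)
  have t3 := dist_triangle p0 (h • p0) (h • x)
  have c1 := dist_comm q p0
  have c2 := dist_comm p0 x
  have := le_abs_self R
  linarith

theorem norm_bdd (hA : Acyl Γ X) (C : ℝ) : ∃ C' : ℝ, ∀ (x : X) (V : Set Γ), V.Infinite →
    ∀ g : Γ, (∀ v ∈ V, dist x (v • x) ≤ C ∧ dist x ((g⁻¹ * v * g) • x) ≤ C) →
      dist x (g • x) ≤ C' := by
  obtain ⟨R, N, hRN⟩ := hA (|C| + 1) (by positivity)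
  refine ⟨R, fun x V hV g hg => ?_⟩
  by_contra hcon
  push Not at hcon
  obtain ⟨h1, -⟩ := hRN x (g • x) hcon.le
  refine hV (h1.subset ?_)
  intro v hv
  obtain ⟨a1, a2⟩ := hg v hv
  have hC := le_abs_self C
  refine ⟨by linarith, ?_⟩
  have e1 : dist (g • x) (v • (g • x)) = dist x ((g⁻¹ * v * g) • x) := by
    rw [← dist_smul g x ((g⁻¹ * v * g) • x), smul_smul, smul_smul]
    congr 2
    group
  rw [e1]
  linarith

end acyl

section gen

variable {k : Type u} [Field k] {n : ℕ}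

/-- the tournament of root groups -/
def TSet (i : Fin n) (P : MvPolynomial (Fin n) k) : Prop :=
  P ∈ Om k i ∧ ((i.val = 0 ∧ ∀ l : Fin n, l.val = n - 1 → P ∈ Om k l) ∨
    (0 < i.val ∧ i.val < n - 1 ∧ ∀ l : Fin n, l.val < i.val → P ∈ Om k l) ∨
    (i.val = n - 1 ∧ ∀ l : Fin n, l.val ≠ 0 → P ∈ Om k l))

theorem TSet.second (hn : 3 ≤ n) {i : Fin n} {P : MvPolynomial (Fin n) k} (h : TSet i P) :
    P ∈ Om k i ∧ ∃ j, j ≠ i ∧ P ∈ Om k j := by
  refine ⟨h.1, ?_⟩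
  rcases h.2 with ⟨h1, h2⟩ | ⟨h1, h2, h3⟩ | ⟨h1, h2⟩
  · refine ⟨⟨n - 1, by omega⟩, ?_, h2 _ rfl⟩
    intro e
    have := congrArg Fin.val e
    simp only at this
    omega
  · refine ⟨⟨0, by omega⟩, ?_, h3 _ h1⟩
    intro e
    have := congrArg Fin.val e
    simp only at this
    omega
  · refine ⟨⟨1, by omega⟩, ?_, h2 _ (by simp)⟩
    intro e
    have := congrArg Fin.val e
    simp only at this
    omega

theorem TSet.pair {i j : Fin n} {P Q : MvPolynomial (Fin n) k} (h : TSet i P) (h' : TSet j Q) :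
    i = j ∨ Q ∈ Om k i ∨ P ∈ Om k j := by
  by_cases hij : i = j
  · exact Or.inl hij
  refine Or.inr ?_
  have hij' : i.val ≠ j.val := fun e => hij (Fin.ext e)
  rcases h.2 with ⟨h1, h2⟩ | ⟨h1, h2, h3⟩ | ⟨h1, h2⟩
  · rcases h'.2 with ⟨g1, g2⟩ | ⟨g1, g2, g3⟩ | ⟨g1, g2⟩
    · omega
    · exact Or.inl (g3 i (by omega))
    · exact Or.inr (h2 j g1)
  · rcases h'.2 with ⟨g1, g2⟩ | ⟨g1, g2, g3⟩ | ⟨g1, g2⟩
    · exact Or.inr (h3 j (by omega))
    · rcases lt_or_gt_of_ne hij' with h | h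
      · exact Or.inl (g3 i h)
      · exact Or.inr (h3 j h)
    · exact Or.inl (g2 i (by omega))
  · rcases h'.2 with ⟨g1, g2⟩ | ⟨g1, g2, g3⟩ | ⟨g1, g2⟩
    · exact Or.inl (g2 i h1)
    · exact Or.inr (h2 j (by omega))
    · omega

/-- the generating set -/
def S0 (k : Type u) [Field k] (n : ℕ) : Set (AutP k n) :=
  {g | ∃ (i : Fin n) (P : MvPolynomial (Fin n) k), TSet i P ∧ g = e i P}

theorem S0_Ad {i : Fin n} {P : MvPolynomial (Fin n) k} (h : TSet i P) :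
    P ∈ Ad (Subgroup.closure (S0 k n)) i :=
  ⟨h.1, Subgroup.subset_closure ⟨i, P, h, rfl⟩⟩

theorem hT_trans {H : Subgroup (AutP k n)} {i j l : Fin n} (hij : i ≠ j) (_hjl : j ≠ l)
    (hil : i ≠ l) (h1 : (X j : MvPolynomial (Fin n) k) ∈ Ad H i)
    (h2 : (X l : MvPolynomial (Fin n) k) ∈ Ad H j) :
    (X l : MvPolynomial (Fin n) k) ∈ Ad H i := by
  have h := Ad_comm hij h1 h2 (X_mem_Om hil.symm)
  rwa [e_X h2.1, add_sub_cancel_left] at h

theorem hT_S0 (hn : 3 ≤ n) : ∀ i j : Fin n, i ≠ j →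
    (X j : MvPolynomial (Fin n) k) ∈ Ad (Subgroup.closure (S0 k n)) i := by
  have val_ne : ∀ {a b : Fin n}, a.val ≠ b.val → a ≠ b := fun h e => h (congrArg Fin.val e)
  have hXO : ∀ {a b : Fin n}, a.val ≠ b.val → (X a : MvPolynomial (Fin n) k) ∈ Om k b :=
    fun h => X_mem_Om (val_ne h)
  -- easy cases
  have c1 : ∀ i j : Fin n, i.val = 0 → 0 < j.val → j.val < n - 1 →
      (X j : MvPolynomial (Fin n) k) ∈ Ad (Subgroup.closure (S0 k n)) i := by
    intro i j hi hj hj'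
    exact S0_Ad ⟨hXO (by omega), Or.inl ⟨hi, fun l hl => hXO (by omega)⟩⟩
  have c2 : ∀ i j : Fin n, 0 < i.val → i.val < n - 1 → i.val < j.val →
      (X j : MvPolynomial (Fin n) k) ∈ Ad (Subgroup.closure (S0 k n)) i := by
    intro i j hi hi' hj
    exact S0_Ad ⟨hXO (by omega), Or.inr (Or.inl ⟨hi, hi', fun l hl => hXO (by omega)⟩)⟩
  have c3 : ∀ i j : Fin n, i.val = n - 1 → j.val = 0 →
      (X j : MvPolynomial (Fin n) k) ∈ Ad (Subgroup.closure (S0 k n)) i := by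
    intro i j hi hj
    exact S0_Ad ⟨hXO (by omega), Or.inr (Or.inr ⟨hi, fun l hl => hXO (by omega)⟩)⟩
  have c4 : ∀ i j : Fin n, i.val = 0 → j.val = n - 1 →
      (X j : MvPolynomial (Fin n) k) ∈ Ad (Subgroup.closure (S0 k n)) i := by
    intro i j hi hj
    have m : Fin n := ⟨1, by omega⟩
    exact hT_trans (j := ⟨1, by omega⟩) (val_ne (by simp only; omega)) (val_ne (by simp only; omega))
      (val_ne (by omega)) (c1 i _ hi (by simp) (by simp only; omega))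
      (c2 _ j (by simp) (by simp only; omega) (by simp only; omega))
  have c5 : ∀ i j : Fin n, 0 < i.val → i.val < n - 1 → j.val = 0 →
      (X j : MvPolynomial (Fin n) k) ∈ Ad (Subgroup.closure (S0 k n)) i := by
    intro i j hi hi' hj
    exact hT_trans (j := ⟨n - 1, by omega⟩) (val_ne (by simp only; omega))
      (val_ne (by simp only; omega)) (val_ne (by omega))
      (c2 i _ hi hi' (by simp only; omega)) (c3 _ j rfl hj)
  have c6 : ∀ i j : Fin n, i.val = n - 1 → 0 < j.val → j.val < n - 1 →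
      (X j : MvPolynomial (Fin n) k) ∈ Ad (Subgroup.closure (S0 k n)) i := by
    intro i j hi hj hj'
    exact hT_trans (j := ⟨0, by omega⟩) (val_ne (by simp only; omega))
      (val_ne (by simp only; omega)) (val_ne (by omega))
      (c3 i _ hi rfl) (c1 _ j rfl hj hj')
  have c7 : ∀ i j : Fin n, 0 < i.val → i.val < n - 1 → 0 < j.val → j.val < i.val →
      (X j : MvPolynomial (Fin n) k) ∈ Ad (Subgroup.closure (S0 k n)) i := by
    intro i j hi hi' hj hj'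
    exact hT_trans (j := ⟨0, by omega⟩) (val_ne (by simp only; omega))
      (val_ne (by simp only; omega)) (val_ne (by omega))
      (c5 i _ hi hi' rfl) (c1 _ j rfl hj (by omega))
  intro i j hij
  have hij' : i.val ≠ j.val := fun e => hij (Fin.ext e)
  have hi := i.isLt
  have hj := j.isLt
  rcases Nat.eq_zero_or_pos i.val with h | h
  · rcases Nat.lt_or_ge j.val (n - 1) with h' | h'
    · exact c1 i j h (by omega) h'
    · exact c4 i j h (by omega)
  · rcases Nat.lt_or_ge i.val (n - 1) with h2 | h2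
    · rcases Nat.lt_or_ge i.val j.val with h3 | h3
      · exact c2 i j h h2 h3
      · rcases Nat.eq_zero_or_pos j.val with h4 | h4
        · exact c5 i j h h2 h4
        · exact c7 i j h h2 h4 (by omega)
    · rcases Nat.eq_zero_or_pos j.val with h4 | h4
      · exact c3 i j (by omega) h4
      · exact c6 i j (by omega) h4 (by omega)

theorem Ad_S0 (hn : 3 ≤ n) : ∀ i b : Fin n, i ≠ b → ∀ P, P ∈ Om k i → P ∈ Om k b →
    P ∈ Ad (Subgroup.closure (S0 k n)) i := by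
  have h0 : (⟨n - 1, by omega⟩ : Fin n) ≠ ⟨0, by omega⟩ := by
    intro e
    have := congrArg Fin.val e
    simp only at this
    omega
  refine Ad_all (hT_S0 hn) (i0 := ⟨n - 1, by omega⟩) (b0 := ⟨0, by omega⟩) h0 ?_ hn
  intro P h1 h2
  have h3 : P ∈ Ad (Subgroup.closure (S0 k n)) ⟨0, by omega⟩ :=
    S0_Ad ⟨h2, Or.inl ⟨rfl, fun l hl => by
      have : l = ⟨n - 1, by omega⟩ := Fin.ext hl
      rw [this]; exact h1⟩⟩
  have h4 := Ad_comm h0 (hT_S0 hn _ _ h0) h3 h1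
  rwa [e_X h2, add_sub_cancel_left] at h4

theorem Ad_S0' (hn : 3 ≤ n) (i : Fin n) (P : MvPolynomial (Fin n) k) (hP : i ∉ P.vars)
    (h : CharZero k ∨ ∃ j, j ≠ i ∧ j ∉ P.vars) :
    P ∈ Ad (Subgroup.closure (S0 k n)) i := by
  rcases h with h | ⟨j, hj, hj'⟩
  · have := h
    exact Ad_zero hn (Ad_S0 hn) i P (mem_Om.2 hP)
  · exact Ad_S0 hn i j hj.symm P (mem_Om.2 hP) (mem_Om.2 hj')

theorem ElemGroup_le (hn : 3 ≤ n) : ElemGroup k n ≤ Subgroup.closure (S0 k n) := by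
  rw [ElemGroup, Subgroup.closure_le]
  rintro g ⟨i, P, hP, h, h1, h2⟩
  rw [eq_e (mem_Om.2 hP) h1 h2]
  exact (Ad_S0' hn i P hP h).2

theorem Ad_Elem {i : Fin n} {P : MvPolynomial (Fin n) k} (hP : i ∉ P.vars)
    (h : CharZero k ∨ ∃ j, j ≠ i ∧ j ∉ P.vars) : P ∈ Ad (ElemGroup k n) i :=
  ⟨mem_Om.2 hP, Subgroup.subset_closure ⟨i, P, hP, h, e_X (mem_Om.2 hP), fun _ hl => e_X_ne P hl⟩⟩

theorem Ad_Elem2 {i j : Fin n} (hij : j ≠ i) {P : MvPolynomial (Fin n) k} (hP : P ∈ Om k i)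
    (hP' : P ∈ Om k j) : P ∈ Ad (ElemGroup k n) i :=
  Ad_Elem (mem_Om.1 hP) (Or.inr ⟨j, hij, mem_Om.1 hP'⟩)

end gen

section tree

variable {k : Type u} [Field k] {n : ℕ} {Γ : Subgroup (AutP k n)} {X : Type v} [MetricSpace X]
  [MulAction Γ X] [IsIsometricSMul Γ X]

theorem e_ell (hX : IsRTree X) (hn : 3 ≤ n) (hΓ : ElemGroup k n ≤ Γ) (x0 : X) {i j : Fin n}
    (hij : j ≠ i) {P : MvPolynomial (Fin n) k} (hP : P ∈ Om k i) (hP' : P ∈ Om k j)
    (hg : e i P ∈ Γ) : Ell X (⟨e i P, hg⟩ : Γ) := by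
  obtain ⟨c, hci, hcj⟩ := third_index hn i j
  have hXj : (MvPolynomial.X j : MvPolynomial (Fin n) k) ∈ Ad (ElemGroup k n) i :=
    Ad_Elem2 hci (X_mem_Om hij) (X_mem_Om hcj.symm)
  have hQi : -P ∈ Om k i := (Om k i).neg_mem hP
  have hQj : -P ∈ Om k j := (Om k j).neg_mem hP'
  have hy : -P ∈ Ad (ElemGroup k n) j := Ad_Elem2 hij.symm hQj hQi
  refine commutator_ell hX x0 (x := (⟨e i (MvPolynomial.X j), hΓ hXj.2⟩ : Γ))
    (y := (⟨e j (-P), hΓ hy.2⟩ : Γ)) (z := (⟨e i P, hg⟩ : Γ)) ?_ ?_ ?_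
  · apply Subtype.ext
    have h := comm_formula hij.symm hXj.1 hQi hQj
    rw [e_X hQj] at h
    have h2 : (MvPolynomial.X j : MvPolynomial (Fin n) k) - (MvPolynomial.X j + -P) = P := by
      ring
    rw [h2] at h
    exact h
  · exact Subtype.ext (e_comm hP hXj.1).eq
  · have h := comm_formula hij.symm hP hQi hQj
    rw [e_Om _ hP', sub_self, e_zero, one_mul] at h
    exact Subtype.ext h

theorem e_pair (hX : IsRTree X) (hn : 3 ≤ n) (hΓ : ElemGroup k n ≤ Γ) (x0 : X) {i j : Fin n}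
    {P Q : MvPolynomial (Fin n) k} (hP : TSet i P) (hQ : TSet j Q)
    (hg : e i P ∈ Γ) (hh : e j Q ∈ Γ) :
    ∃ p : X, (⟨e i P, hg⟩ : Γ) • p = p ∧ (⟨e j Q, hh⟩ : Γ) • p = p := by
  obtain ⟨p1, i', hi', p2⟩ := hP.second hn
  obtain ⟨q1, j', hj', q2⟩ := hQ.second hn
  have ha := e_ell hX hn hΓ x0 hi' p1 p2 hg
  have hb := e_ell hX hn hΓ x0 hj' q1 q2 hh
  by_cases hij : i = j
  · subst hij
    exact comm_ell hX ha hb (Subtype.ext (e_comm p1 q1).eq)
  rcases hP.pair hQ with h | h | h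
  · exact absurd h hij
  · refine conj_ell hX ha hb (Subtype.ext ?_)
    have h1 := conj_formula hij p1 h q1
    have h2 : e j (-Q) P ∈ Om k i :=
      e_map_Om ((Om k j).neg_mem q1) ((Om k i).neg_mem h) p1
    have h3 := e_comm p1 h2
    rw [← h1] at h3
    exact h3.eq
  · obtain ⟨p, h1, h2⟩ := conj_ell hX hb ha (Subtype.ext (by
      have h1 := conj_formula (Ne.symm hij) q1 h p1
      have h2 : e i (-P) Q ∈ Om k j :=
        e_map_Om ((Om k i).neg_mem p1) ((Om k j).neg_mem h) q1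
      have h3 := e_comm q1 h2
      rw [← h1] at h3
      exact h3.eq))
    exact ⟨p, h2, h1⟩

theorem loc_ell (hX : IsRTree X) (hn : 3 ≤ n) (hΓ : ElemGroup k n ≤ Γ) (x0 : X)
    (F : Finset Γ) (hF : ∀ g ∈ F, (g : AutP k n) ∈ ElemGroup k n) :
    ∃ p : X, ∀ g ∈ F, g • p = p := by
  set S : Set Γ := {g | (g : AutP k n) ∈ S0 k n} with hS
  have hsub : S0 k n ⊆ (Γ.subtype) '' S := by
    intro g hg
    have hgΓ : g ∈ Γ := by
      obtain ⟨i, P, hP, rfl⟩ := hg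
      obtain ⟨p1, j, hj, p2⟩ := hP.second hn
      exact hΓ (Ad_Elem2 hj p1 p2).2
    exact ⟨⟨g, hgΓ⟩, hg, rfl⟩
  refine closure_loc hX x0 S ?_ F ?_
  · rintro ⟨a, ha⟩ ⟨i, P, hP, hai⟩ ⟨b, hb⟩ ⟨j, Q, hQ, hbj⟩
    simp only at hai hbj
    subst hai hbj
    exact e_pair hX hn hΓ x0 hP hQ ha hb
  · intro g hg
    have h1 : (g : AutP k n) ∈ (Subgroup.closure S).map Γ.subtype := by
      rw [MonoidHom.map_closure]
      exact Subgroup.closure_mono hsub (ElemGroup_le hn (hF g hg))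
    obtain ⟨g', hg', hgg⟩ := h1
    have : g' = g := Subtype.ext hgg
    rwa [← this]

end tree

end Pool.Agent.Work.AffTree
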