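import Pool.Agent.Work.MP_b2cdcf_al_h99.Main

set_option autoImplicit false

namespace Pool.Agent.Work.AffTree

open MvPolynomial

universe u v

section norm

variable {k : Type u} [Field k] {n : ℕ}

/-- scaling of one variable -/
noncomputable def scHom (i : Fin n) (c : k) :
    MvPolynomial (Fin n) k →ₐ[k] MvPolynomial (Fin n) k :=
  aeval (fun j => if j = i then C c * X i else X j)

theorem scHom_X (i : Fin n) (c : k) : scHom i c (X i) = C c * X i := by simp [scHom]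

theorem scHom_X_ne (i : Fin n) (c : k) {j : Fin n} (h : j ≠ i) : scHom i c (X j) = X j := by
  simp [scHom, h]

theorem scHom_comp (i : Fin n) {c d : k} (h : c * d = 1) :
    (scHom i c).comp (scHom i d) = AlgHom.id k _ := by
  apply algHom_ext
  intro j
  rw [AlgHom.comp_apply]
  by_cases hj : j = i
  · subst hj
    rw [scHom_X, map_mul, scHom_X]
    have : scHom j c (C d) = C d := (scHom j c).commutes d
    rw [this, ← mul_assoc, ← C_mul, mul_comm d c, h, C_1, one_mul]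
    rfl
  · rw [scHom_X_ne _ _ hj, scHom_X_ne _ _ hj]; rfl

noncomputable def sc (i : Fin n) (c : k) (hc : c ≠ 0) : AutP k n :=
  AlgEquiv.ofAlgHom (scHom i c) (scHom i c⁻¹) (scHom_comp i (mul_inv_cancel₀ hc))
    (scHom_comp i (inv_mul_cancel₀ hc))

theorem sc_X (i : Fin n) {c : k} (hc : c ≠ 0) : sc i c hc (X i) = C c * X i := scHom_X i c

theorem sc_X_ne (i : Fin n) {c : k} (hc : c ≠ 0) {j : Fin n} (h : j ≠ i) :
    sc i c hc (X j) = X j := scHom_X_ne i c h

theorem aut_C (g : AutP k n) (c : k) : g (C c) = C c := g.commutes c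

theorem sc_inv_X (i : Fin n) {c : k} (hc : c ≠ 0) : (sc i c hc)⁻¹ (X i) = C c⁻¹ * X i := by
  apply inv_X
  rw [map_mul, aut_C, sc_X, ← mul_assoc, ← C_mul, inv_mul_cancel₀ hc, C_1, one_mul]

theorem sc_inv_X_ne (i : Fin n) {c : k} (hc : c ≠ 0) {j : Fin n} (h : j ≠ i) :
    (sc i c hc)⁻¹ (X j) = X j := inv_X (sc_X_ne i hc h)

theorem sc_inv (i : Fin n) {c : k} (hc : c ≠ 0) :
    (sc i c hc)⁻¹ = sc i c⁻¹ (inv_ne_zero hc) := by
  apply aut_ext
  intro j
  by_cases h : j = i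
  · subst h; rw [sc_inv_X, sc_X]
  · rw [sc_inv_X_ne _ _ h, sc_X_ne _ _ h]

theorem sc_Om (i : Fin n) {c : k} (hc : c ≠ 0) {l : Fin n} {P : MvPolynomial (Fin n) k}
    (h : P ∈ Om k l) : sc i c hc P ∈ Om k l := by
  refine map_Om _ (fun j hj => ?_)
  have hjl : j ≠ l := fun e => mem_Om.1 h (e ▸ hj)
  by_cases hji : j = i
  · subst hji
    rw [sc_X]
    exact (Om k l).mul_mem (C_mem_Om _) (X_mem_Om hjl)
  · rw [sc_X_ne _ _ hji]
    exact X_mem_Om hjl

theorem sc_conj (i : Fin n) {c : k} (hc : c ≠ 0) {h : AutP k n} (hh : h ∈ ElemGroup k n) :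
    sc i c hc * h * (sc i c hc)⁻¹ ∈ ElemGroup k n := by
  rw [ElemGroup] at hh
  induction hh using Subgroup.closure_induction with
  | mem g hg =>
    obtain ⟨j, P, hP, hj, h1, h2⟩ := hg
    have hP' := mem_Om.2 hP
    have hj' : ∀ a : k, CharZero k ∨ ∃ l, l ≠ j ∧ l ∉ (C a * sc i c hc P).vars := by
      intro a
      rcases hj with h | ⟨l, hl, hl'⟩
      · exact Or.inl h
      · exact Or.inr ⟨l, hl, mem_Om.1 ((Om k l).mul_mem (C_mem_Om _) (sc_Om i hc (mem_Om.2 hl')))⟩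
    have hO : ∀ a : k, j ∉ (C a * sc i c hc P).vars := fun a =>
      mem_Om.1 ((Om k j).mul_mem (C_mem_Om _) (sc_Om i hc hP'))
    refine Subgroup.subset_closure ?_
    by_cases hji : j = i
    · subst hji
      refine ⟨j, C c⁻¹ * sc j c hc P, hO _, hj' _, ?_, ?_⟩
      · simp only [AlgEquiv.mul_apply]
        rw [sc_inv_X, map_mul, aut_C, h1, map_mul, aut_C, map_add, sc_X]
        rw [mul_add, ← mul_assoc, ← C_mul, inv_mul_cancel₀ hc, C_1, one_mul]
      · intro l hl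
        simp only [AlgEquiv.mul_apply]
        rw [sc_inv_X_ne _ _ hl, h2 l hl, sc_X_ne _ _ hl]
    · refine ⟨j, C 1 * sc i c hc P, hO _, hj' _, ?_, ?_⟩
      · simp only [AlgEquiv.mul_apply]
        rw [sc_inv_X_ne _ _ hji, h1, map_add, sc_X_ne _ _ hji, C_1, one_mul]
      · intro l hl
        simp only [AlgEquiv.mul_apply]
        by_cases hli : l = i
        · subst hli
          rw [sc_inv_X, map_mul, aut_C, h2 l hl, map_mul, aut_C, sc_X, ← mul_assoc, ← C_mul,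
            inv_mul_cancel₀ hc, C_1, one_mul]
        · rw [sc_inv_X_ne _ _ hli, h2 l hl, sc_X_ne _ _ hli]
  | one =>
    rw [mul_one, mul_inv_cancel]
    exact one_mem _
  | mul a b _ _ ia ib =>
    have : sc i c hc * (a * b) * (sc i c hc)⁻¹ =
        (sc i c hc * a * (sc i c hc)⁻¹) * (sc i c hc * b * (sc i c hc)⁻¹) := by group
    rw [this]
    exact mul_mem ia ib
  | inv a _ ia =>
    have : sc i c hc * a⁻¹ * (sc i c hc)⁻¹ = (sc i c hc * a * (sc i c hc)⁻¹)⁻¹ := by group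
    rw [this]
    exact inv_mem ia

theorem sc_mem_normalizer (i : Fin n) {c : k} (hc : c ≠ 0) :
    sc i c hc ∈ Subgroup.normalizer (ElemGroup k n : Set (AutP k n)) := by
  rw [Subgroup.mem_normalizer_iff]
  intro h
  refine ⟨fun hh => sc_conj i hc hh, fun hh => ?_⟩
  have h1 := sc_conj i (inv_ne_zero hc) hh
  rw [← sc_inv i hc] at h1
  have : (sc i c hc)⁻¹ * (sc i c hc * h * (sc i c hc)⁻¹) * ((sc i c hc)⁻¹)⁻¹ = h := by group
  rwa [this] at h1

theorem Tame_le_normalizer :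
    TameGroup k n ≤ Subgroup.normalizer (ElemGroup k n : Set (AutP k n)) := by
  rw [TameGroup, Subgroup.closure_le]
  rintro g ⟨i, c, P, hc, hP, hj, h1, h2⟩
  have hP' := mem_Om.2 hP
  have hQ : C c⁻¹ * P ∈ Om k i := (Om k i).mul_mem (C_mem_Om _) hP'
  have hQ' : C c⁻¹ * P ∈ Ad (ElemGroup k n) i := by
    refine Ad_Elem (mem_Om.1 hQ) ?_
    rcases hj with h | ⟨j, hj, hj'⟩
    · exact Or.inl h
    · exact Or.inr ⟨j, hj, mem_Om.1 ((Om k j).mul_mem (C_mem_Om _) (mem_Om.2 hj'))⟩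
  have hg : g = e i (C c⁻¹ * P) * sc i c hc := by
    apply aut_ext
    intro j
    rw [AlgEquiv.mul_apply]
    by_cases h : j = i
    · subst h
      rw [h1, sc_X, map_mul, aut_C, e_X hQ, mul_add, ← mul_assoc (C c) (C c⁻¹), ← C_mul,
        mul_inv_cancel₀ hc, C_1, one_mul]
    · rw [h2 j h, sc_X_ne _ _ h, e_X_ne _ h]
  rw [hg]
  exact mul_mem (Subgroup.le_normalizer hQ'.2) (sc_mem_normalizer i hc)

theorem inv_conj_mem {g h : AutP k n} (hg : g ∈ TameGroup k n) (hh : h ∈ ElemGroup k n) :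
    g⁻¹ * h * g ∈ ElemGroup k n := by
  have h1 := Tame_le_normalizer (inv_mem hg)
  have h2 := (Subgroup.mem_normalizer_iff.1 h1 h).1 hh
  rwa [inv_inv] at h2

theorem e_inj {i : Fin n} {P Q : MvPolynomial (Fin n) k} (hP : P ∈ Om k i) (hQ : Q ∈ Om k i)
    (h : e i P = e i Q) : P = Q := by
  have := DFunLike.congr_fun h (X i)
  rw [e_X hP, e_X hQ] at this
  exact add_left_cancel this

theorem X_pow_inj (a : Fin n) : Function.Injective (fun m : ℕ => (X a : MvPolynomial (Fin n) k) ^ m) := by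
  intro m m' h
  have := congrArg totalDegree h
  simpa only [totalDegree_X_pow] using this

end norm

section final

variable {k : Type u} [Field k] {n : ℕ} {Γ : Subgroup (AutP k n)} {X : Type v} [MetricSpace X]
  [MulAction Γ X] [IsIsometricSMul Γ X]

/-- elements `e j P` of `Γ` -/
def VSet (Γ : Subgroup (AutP k n)) (j : Fin n) : Set Γ :=
  {v | ∃ P : MvPolynomial (Fin n) k, P ∈ Om k j ∧ (v : AutP k n) = e j P}

theorem VSet_inf (hn : 3 ≤ n) (hΓ : ElemGroup k n ≤ Γ) (j : Fin n) :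
    {v : Γ | v ∈ VSet Γ j ∧ (v : AutP k n) ∈ ElemGroup k n}.Infinite := by
  obtain ⟨a, ha, -⟩ := third_index hn j j
  obtain ⟨b, hb, hb'⟩ := third_index hn j a
  have hO : ∀ m : ℕ, (MvPolynomial.X a : MvPolynomial (Fin n) k) ^ m ∈ Ad (ElemGroup k n) j :=
    fun m => Ad_Elem2 hb ((Om k j).pow_mem (X_mem_Om ha) m) ((Om k b).pow_mem (X_mem_Om hb'.symm) m)
  let f : ℕ → Γ := fun m => ⟨e j ((MvPolynomial.X a : MvPolynomial (Fin n) k) ^ m), hΓ (hO m).2⟩
  have hf : Function.Injective f := by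
    intro m m' h
    have h1 : e j ((MvPolynomial.X a : MvPolynomial (Fin n) k) ^ m) =
        e j ((MvPolynomial.X a : MvPolynomial (Fin n) k) ^ m') := congrArg Subtype.val h
    exact X_pow_inj a (e_inj (hO m).1 (hO m').1 h1)
  refine (Set.infinite_range_of_injective hf).mono ?_
  rintro _ ⟨m, rfl⟩
  exact ⟨⟨_, (hO m).1, rfl⟩, (hO m).2⟩

theorem VSet_conj {j : Fin n} {g v : Γ} (hg : PreservesCoord k n j (g : AutP k n))
    (hv : v ∈ VSet Γ j) : g⁻¹ * v * g ∈ VSet Γ j := by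
  obtain ⟨h1, c, Q, hc, hQ, h2⟩ := hg
  obtain ⟨P, hP, hvP⟩ := hv
  set G : AutP k n := (g : AutP k n) with hG
  have hinv : ∀ R : MvPolynomial (Fin n) k, G (G⁻¹ R) = R := fun R => G.apply_symm_apply R
  have hP' : G⁻¹ P ∈ Om k j := by
    rw [mem_Om, h1, hinv]; exact mem_Om.1 hP
  have hR : C c * G⁻¹ P ∈ Om k j := (Om k j).mul_mem (C_mem_Om _) hP'
  refine ⟨C c * G⁻¹ P, hR, ?_⟩
  refine eq_e hR ?_ ?_
  · change (G⁻¹ * (v : AutP k n) * G) (MvPolynomial.X j) = _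
    simp only [AlgEquiv.mul_apply]
    rw [h2, hvP, map_add, map_mul, aut_C, e_X hP, e_Om _ (mem_Om.2 hQ)]
    have h3 : C c * (MvPolynomial.X j + P) + Q = G (MvPolynomial.X j) + C c * P := by
      rw [h2]; ring
    rw [h3, map_add, map_mul, aut_C]
    congr 1
    exact G.symm_apply_apply _
  · intro l hl
    change (G⁻¹ * (v : AutP k n) * G) (MvPolynomial.X l) = _
    simp only [AlgEquiv.mul_apply]
    have h3 : G (MvPolynomial.X l) ∈ Om k j := mem_Om.2 ((h1 _).1 (mem_Om.1 (X_mem_Om hl)))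
    rw [hvP, e_Om _ h3]
    exact G.symm_apply_apply _

theorem final_bdd (hX : IsRTree X) (hn : 3 ≤ n) (hΓ : ElemGroup k n ≤ Γ) (hA : Acyl Γ X)
    (x : X) : ∃ C : ℝ, ∀ g : Γ, ((g : AutP k n) ∈ TameGroup k n ∨
      ∃ j, PreservesCoord k n j (g : AutP k n)) → dist x (g • x) ≤ C := by
  have hj0 : Fin n := ⟨0, by omega⟩
  set V : Set Γ := {v | (v : AutP k n) ∈ ElemGroup k n} with hV
  have hVinf : V.Infinite := (VSet_inf hn hΓ hj0).mono (fun v hv => hv.2)
  obtain ⟨C1, hC1⟩ := bdd_of_loc hA V hVinf (fun F hF => loc_ell hX hn hΓ x F hF) x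
  obtain ⟨C2, hC2⟩ := norm_bdd (X := X) hA C1
  have hV2 : ∀ j : Fin n, ∀ v ∈ VSet Γ j, dist x (v • x) ≤ C2 := by
    intro j v hv
    refine hC2 x _ (VSet_inf hn hΓ j) v (fun w hw => ⟨hC1 w hw.2, ?_⟩)
    obtain ⟨P, hP, hvP⟩ := hv
    obtain ⟨⟨Q, hQ, hwQ⟩, hw2⟩ := hw
    have hcomm : Commute w v := by
      refine Subtype.ext ?_
      change (w : AutP k n) * (v : AutP k n) = (v : AutP k n) * (w : AutP k n)
      rw [hvP, hwQ]
      exact (e_comm hQ hP).eq
    have : v⁻¹ * w * v = w := by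
      rw [mul_assoc, hcomm.eq, inv_mul_cancel_left]
    rw [this]
    exact hC1 w hw2
  obtain ⟨C3, hC3⟩ := norm_bdd (X := X) hA C2
  refine ⟨max C2 C3, ?_⟩
  rintro g (hg | ⟨j, hg⟩)
  · refine le_trans ?_ (le_max_left _ _)
    refine hC2 x V hVinf g (fun v hv => ⟨hC1 v hv, hC1 _ ?_⟩)
    exact inv_conj_mem hg hv
  · refine le_trans ?_ (le_max_right _ _)
    refine hC3 x (VSet Γ j) ((VSet_inf hn hΓ j).mono (fun v hv => hv.1)) g
      (fun v hv => ⟨hV2 j v hv, hV2 j _ (VSet_conj hg hv)⟩)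

end final

end Pool.Agent.Work.AffTree
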