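import Pool.Agent.Work.MP_b2cdcf_al_h99.Defs

/-!
Isometric group actions on real trees (geodesic metric spaces which are 0-hyperbolic).
-/

set_option autoImplicit false

namespace Pool.Agent.Work.AffTree

open Metric

section tree

variable {X : Type*} [MetricSpace X]

theorem four (hX : IsRTree X) (x y z w : X) :
    dist x z + dist y w ≤ max (dist x y + dist z w) (dist y z + dist x w) := by
  have h := hX.hyp x y z w
  have h1 := dist_comm z w
  rcases min_le_iff.1 h with h | h
  · exact le_max_of_le_left (by linarith)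
  · exact le_max_of_le_right (by linarith)

theorem exists_pt (hX : IsRTree X) (x y : X) (s : ℝ) (h0 : 0 ≤ s) (h1 : s ≤ dist x y) :
    ∃ p, dist x p = s ∧ dist p y = dist x y - s := by
  obtain ⟨γ, g0, g1, g⟩ := hX.geod x y
  refine ⟨γ s, ?_, ?_⟩
  · have := g 0 s le_rfl (h0.trans h1) h0 h1
    rw [g0] at this
    rw [this, zero_sub, abs_neg, abs_of_nonneg h0]
  · have := g s (dist x y) h0 h1 (h0.trans h1) le_rfl
    rw [g1] at this
    rw [this, abs_sub_comm, abs_of_nonneg (by linarith)]

theorem uniq_pt (hX : IsRTree X) {x y p q : X}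
    (hp : dist x p + dist p y = dist x y) (hq : dist x q + dist q y = dist x y)
    (h : dist x p = dist x q) : p = q := by
  have h1 := four hX p x q y
  have h2 := dist_comm p x
  have h3 : max (dist p x + dist q y) (dist x q + dist p y) = dist x y := by
    rw [max_eq_left (by linarith)]; linarith
  rw [h3] at h1
  exact dist_le_zero.1 (by linarith)

theorem center (hX : IsRTree X) (x y z : X) :
    ∃ c, dist x c + dist c y = dist x y ∧ dist y c + dist c z = dist y z ∧
      dist x c + dist c z = dist x z := by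
  have t1 := dist_triangle y x z
  have t2 := dist_triangle x y z
  have t3 := dist_triangle x z y
  have c1 := dist_comm y x
  have c2 := dist_comm z y
  have c3 := dist_comm z x
  obtain ⟨c, h1, h2⟩ := exists_pt hX x y ((dist x y + dist x z - dist y z) / 2)
    (by linarith) (by linarith)
  have c4 := dist_comm c x
  have c5 := dist_comm c y
  have c6 := dist_comm c z
  have h3 := four hX c x z y
  have h4 : dist c z ≤ (dist x z + dist y z - dist x y) / 2 := by
    rcases le_max_iff.1 h3 with h | h <;> linarith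
  have h5 := dist_triangle x c z
  refine ⟨c, by linarith, by linarith, by linarith⟩

theorem exists_mid (hX : IsRTree X) (x y : X) :
    ∃ m, dist x m = dist x y / 2 ∧ dist m y = dist x y / 2 := by
  have := dist_nonneg (x := x) (y := y)
  obtain ⟨m, h1, h2⟩ := exists_pt hX x y (dist x y / 2) (by linarith) (by linarith)
  exact ⟨m, h1, by rw [h2]; ring⟩

/-- convex subsets of a real tree -/
def Cvx (C : Set X) : Prop :=
  ∀ x ∈ C, ∀ y ∈ C, ∀ p, dist x p + dist p y = dist x y → p ∈ C

theorem Cvx.inter {C D : Set X} (hC : Cvx C) (hD : Cvx D) : Cvx (C ∩ D) :=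
  fun x hx y hy p hp => ⟨hC x hx.1 y hy.1 p hp, hD x hx.2 y hy.2 p hp⟩

theorem helly3 (hX : IsRTree X) {C D E : Set X} (hC : Cvx C) (hD : Cvx D) (hE : Cvx E)
    (h1 : (C ∩ D).Nonempty) (h2 : (D ∩ E).Nonempty) (h3 : (C ∩ E).Nonempty) :
    (C ∩ D ∩ E).Nonempty := by
  obtain ⟨x, x1, x2⟩ := h1
  obtain ⟨y, y1, y2⟩ := h2
  obtain ⟨z, z1, z2⟩ := h3
  obtain ⟨c, c1, c2, c3⟩ := center hX x y z
  exact ⟨c, ⟨hC x x1 z z1 c c3, hD x x2 y y1 c c1⟩, hE y y2 z z2 c c2⟩

theorem helly (hX : IsRTree X) {ι : Type*} [DecidableEq ι] (s : Finset ι) :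
    ∀ C : ι → Set X, (∀ i, Cvx (C i)) → (∀ i ∈ s, ∀ j ∈ s, (C i ∩ C j).Nonempty) →
      s.Nonempty → ∃ p, ∀ i ∈ s, p ∈ C i := by
  induction s using Finset.induction with
  | empty => intro C _ _ h; exact absurd rfl h.ne_empty
  | insert a s ha ih =>
    intro C hC hp _
    rcases s.eq_empty_or_nonempty with rfl | hs
    · obtain ⟨p, h1, h2⟩ := hp a (by simp) a (by simp)
      exact ⟨p, fun i hi => by
        rcases Finset.mem_insert.1 hi with rfl | h
        · exact h1
        · exact absurd h (Finset.notMem_empty _)⟩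
    · obtain ⟨p, hp⟩ := ih (fun i => C i ∩ C a) (fun i => (hC i).inter (hC a))
        (fun i hi j hj => by
          obtain ⟨q, ⟨q1, q2⟩, q3⟩ := helly3 hX (hC i) (hC j) (hC a)
            (hp i (Finset.mem_insert_of_mem hi) j (Finset.mem_insert_of_mem hj))
            (hp j (Finset.mem_insert_of_mem hj) a (Finset.mem_insert_self _ _))
            (hp i (Finset.mem_insert_of_mem hi) a (Finset.mem_insert_self _ _))
          exact ⟨q, ⟨q1, q3⟩, q2, q3⟩) hs
      obtain ⟨i0, hi0⟩ := hs
      refine ⟨p, fun i hi => ?_⟩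
      rcases Finset.mem_insert.1 hi with rfl | h
      · exact (hp i0 hi0).2
      · exact (hp i h).1

end tree

section action

variable {X : Type*} [MetricSpace X] {Γ : Type*} [Group Γ] [MulAction Γ X] [IsIsometricSMul Γ X]

/-- `g` has a fixed point -/
def Ell (X : Type*) [MetricSpace X] {Γ : Type*} [Group Γ] [MulAction Γ X] (g : Γ) : Prop :=
  ∃ p : X, g • p = p

theorem fix_cvx (hX : IsRTree X) (g : Γ) : Cvx {p : X | g • p = p} := by
  intro x hx y hy p hp
  have hx : g • x = x := hx
  have hy : g • y = y := hy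
  have e1 : dist x (g • p) = dist x p := by
    conv_lhs => rw [← hx]
    exact dist_smul g x p
  have e2 : dist (g • p) y = dist p y := by
    conv_lhs => rw [← hy]
    exact dist_smul g p y
  exact uniq_pt hX (by rw [e1, e2, hp]) hp e1

theorem mid_fix (hX : IsRTree X) {g : Γ} (hg : Ell X g) {x m : X}
    (h1 : dist x m = dist x (g • x) / 2) (h2 : dist m (g • x) = dist x (g • x) / 2) :
    g • m = m := by
  obtain ⟨p, hp⟩ := hg
  obtain ⟨c, c1, c2, c3⟩ := center hX p x (g • x)
  have e1 : dist p (g • x) = dist p x := by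
    conv_lhs => rw [← hp]
    exact dist_smul g p x
  have a1 := dist_comm c x
  have hc : dist x c = dist x (g • x) / 2 := by linarith
  have hcm : c = m := uniq_pt hX c2 (by linarith) (by linarith)
  subst hcm
  have e2 : dist p (g • c) = dist p c := by
    conv_lhs => rw [← hp]
    exact dist_smul g p c
  have e3 : dist (g • c) (g • x) = dist c x := dist_smul g c x
  exact uniq_pt hX (by linarith) c3 e2

theorem comm_ell (hX : IsRTree X) {g h : Γ} (hg : Ell X g) (hh : Ell X h) (hc : Commute g h) :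
    ∃ p : X, g • p = p ∧ h • p = p := by
  obtain ⟨x, hx⟩ := hh
  obtain ⟨m, m1, m2⟩ := exists_mid hX x (g • x)
  refine ⟨m, mid_fix hX hg m1 m2, ?_⟩
  have hgx : h • (g • x) = g • x := by
    rw [smul_smul, ← hc.eq, ← smul_smul, hx]
  exact fix_cvx hX h x hx (g • x) hgx m (by linarith)

theorem conj_ell (hX : IsRTree X) {a b : Γ} (ha : Ell X a) (hb : Ell X b)
    (hc : Commute a (b⁻¹ * a * b)) : ∃ p : X, a • p = p ∧ b • p = p := by
  have ha' : Ell X (b⁻¹ * a * b) := by
    obtain ⟨p, hp⟩ := ha
    exact ⟨b⁻¹ • p, by rw [smul_smul, mul_assoc, mul_assoc, mul_inv_cancel, mul_one,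
      ← smul_smul, hp]⟩
  obtain ⟨x, x1, x2⟩ := comm_ell hX ha ha' hc
  have hbx : a • (b • x) = b • x := by
    have : b • ((b⁻¹ * a * b) • x) = b • x := by rw [x2]
    rwa [smul_smul, mul_assoc, mul_inv_cancel_left, ← smul_smul] at this
  obtain ⟨m, m1, m2⟩ := exists_mid hX x (b • x)
  exact ⟨m, fix_cvx hX a x x1 (b • x) hbx m (by linarith), mid_fix hX hb m1 m2⟩

theorem growth (hX : IsRTree X) {g : Γ} (hg : ¬ Ell X g) (x : X) :
    ∃ t : ℝ, 0 < t ∧ ∀ n : ℕ, (n : ℝ) * t ≤ dist x (g ^ (n + 1) • x) := by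
  have hlt : dist x (g • x) < dist x (g ^ 2 • x) := by
    by_contra hle
    push Not at hle
    apply hg
    obtain ⟨m, m1, m2⟩ := exists_mid hX x (g • x)
    refine ⟨m, ?_⟩
    have hg2 : g ^ 2 • x = g • (g • x) := by rw [pow_two, smul_smul]
    rw [hg2] at hle
    have e1 : dist (g • x) (g • m) = dist x m := dist_smul g x m
    have e2 : dist (g • m) (g • (g • x)) = dist m (g • x) := dist_smul g m (g • x)
    have e3 : dist (g • x) (g • (g • x)) = dist x (g • x) := dist_smul g x (g • x)
    have f1 := four hX x (g • x) (g • m) (g • (g • x))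
    have d1 : dist x (g • m) ≤ dist x (g • x) / 2 := by
      rcases le_max_iff.1 f1 with h | h <;> linarith
    have f2 := four hX m x (g • m) (g • x)
    have a1 := dist_comm m x
    have a2 := dist_comm (g • m) (g • x)
    have d2 : dist m (g • m) ≤ 0 := by
      rcases le_max_iff.1 f2 with h | h <;> linarith
    exact (dist_le_zero.1 d2).symm
  refine ⟨dist x (g ^ 2 • x) - dist x (g • x), by linarith, ?_⟩
  have key : ∀ n : ℕ, dist x (g ^ (n + 1) • x) + (dist x (g ^ 2 • x) - dist x (g • x)) ≤
      dist x (g ^ (n + 2) • x) ∧ dist x (g • x) ≤ dist x (g ^ (n + 1) • x) := by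
    intro n
    induction n with
    | zero => simp only [zero_add, pow_one]; constructor <;> linarith
    | succ n ih =>
      obtain ⟨i1, i2⟩ := ih
      have f := four hX x (g • x) (g ^ (n + 2) • x) (g ^ (n + 3) • x)
      have s1 : g ^ (n + 2) • x = g • (g ^ (n + 1) • x) := by
        rw [smul_smul, ← pow_succ']
      have s2 : g ^ (n + 3) • x = g • (g ^ (n + 2) • x) := by
        rw [smul_smul, ← pow_succ']
      have s3 : g ^ (n + 3) • x = g ^ (n + 2) • (g • x) := by
        rw [smul_smul, ← pow_succ]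
      have e1 : dist (g • x) (g ^ (n + 3) • x) = dist x (g ^ (n + 2) • x) := by
        rw [s2]; exact dist_smul g _ _
      have e2 : dist (g ^ (n + 2) • x) (g ^ (n + 3) • x) = dist x (g • x) := by
        rw [s3]; exact dist_smul _ _ _
      have e3 : dist (g • x) (g ^ (n + 2) • x) = dist x (g ^ (n + 1) • x) := by
        rw [s1]; exact dist_smul g _ _
      have hn : g ^ (n + 1 + 1) • x = g ^ (n + 2) • x := rfl
      have hn' : g ^ (n + 1 + 2) • x = g ^ (n + 3) • x := rfl
      rw [hn, hn']
      refine ⟨?_, by linarith⟩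
      rcases le_max_iff.1 f with h | h <;> linarith
  intro n
  induction n with
  | zero => simp
  | succ n ih =>
    have h1 := (key n).1
    have hn : g ^ (n + 1 + 1) • x = g ^ (n + 2) • x := rfl
    rw [hn]
    push_cast
    linarith

theorem comm_pow {x y z : Γ} (hz : x * y = z * y * x) (h1 : Commute z x) (h2 : Commute z y)
    (n m : ℕ) : x ^ n * y ^ m = z ^ (n * m) * y ^ m * x ^ n := by
  have s1 : ∀ n : ℕ, x ^ n * y = z ^ n * y * x ^ n := by
    intro n
    induction n with
    | zero => simp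
    | succ n ih =>
      have hxz : x * z ^ n = z ^ n * x := (h1.pow_left n).symm.eq
      calc x ^ (n + 1) * y = x * (x ^ n * y) := by rw [pow_succ']; group
        _ = x * z ^ n * y * x ^ n := by rw [ih]; group
        _ = z ^ n * (x * y) * x ^ n := by rw [hxz]; group
        _ = z ^ n * (z * y * x) * x ^ n := by rw [hz]
        _ = z ^ (n + 1) * y * x ^ (n + 1) := by
          rw [pow_succ z, pow_succ' x]; group
  induction m with
  | zero => simp
  | succ m ih =>
    have h3 : Commute (y ^ m) (z ^ n) := (h2.pow_pow n m).symm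
    calc x ^ n * y ^ (m + 1) = x ^ n * y ^ m * y := by rw [pow_succ y]; group
      _ = z ^ (n * m) * y ^ m * (x ^ n * y) := by rw [ih]; group
      _ = z ^ (n * m) * (y ^ m * z ^ n) * y * x ^ n := by rw [s1]; group
      _ = z ^ (n * m) * (z ^ n * y ^ m) * y * x ^ n := by rw [h3.eq]
      _ = z ^ (n * (m + 1)) * y ^ (m + 1) * x ^ n := by
        rw [mul_add, mul_one, pow_add z, pow_succ y]; group

theorem dist_pow_le (g : Γ) (x : X) (n : ℕ) : dist x (g ^ n • x) ≤ n * dist x (g • x) := by
  induction n with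
  | zero => simp
  | succ n ih =>
    have h1 := dist_triangle x (g ^ n • x) (g ^ (n + 1) • x)
    have h2 : dist (g ^ n • x) (g ^ (n + 1) • x) = dist x (g • x) := by
      rw [pow_succ, ← smul_smul]; exact dist_smul _ _ _
    push_cast
    linarith

/-- a commutator which commutes with its two entries has a fixed point -/
theorem commutator_ell (hX : IsRTree X) (x0 : X) {x y z : Γ} (hz : x * y = z * y * x)
    (h1 : Commute z x) (h2 : Commute z y) : Ell X z := by
  by_contra hne
  obtain ⟨t, ht, hgr⟩ := growth hX hne x0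
  set M := dist x0 (x • x0) + dist x0 (y • x0) with hM
  have hM0 : 0 ≤ M := by positivity
  have key : ∀ n : ℕ, dist x0 (z ^ (n * n) • x0) ≤ 2 * n * M := by
    intro n
    have e : z ^ (n * n) = x ^ n * y ^ n * (x ^ n)⁻¹ * (y ^ n)⁻¹ := by
      rw [comm_pow hz h1 h2 n n]; group
    have inv : ∀ g : Γ, dist x0 (g⁻¹ • x0) = dist x0 (g • x0) := by
      intro g
      rw [← dist_smul g x0 (g⁻¹ • x0), smul_smul, mul_inv_cancel, one_smul, dist_comm]
    have mul : ∀ g h : Γ, dist x0 ((g * h) • x0) ≤ dist x0 (g • x0) + dist x0 (h • x0) := by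
      intro g h
      have t1 := dist_triangle x0 (g • x0) ((g * h) • x0)
      have t2 : dist (g • x0) ((g * h) • x0) = dist x0 (h • x0) := by
        rw [← smul_smul]; exact dist_smul _ _ _
      linarith
    rw [e]
    have m1 := mul (x ^ n * y ^ n * (x ^ n)⁻¹) ((y ^ n)⁻¹)
    have m2 := mul (x ^ n * y ^ n) ((x ^ n)⁻¹)
    have m3 := mul (x ^ n) (y ^ n)
    rw [inv] at m1 m2
    have p1 := dist_pow_le x x0 n
    have p2 := dist_pow_le y x0 n
    calc _ ≤ 2 * (dist x0 (x ^ n • x0) + dist x0 (y ^ n • x0)) := by linarith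
      _ ≤ 2 * (n * dist x0 (x • x0) + n * dist x0 (y • x0)) := by linarith
      _ = 2 * n * M := by rw [hM]; ring
  obtain ⟨n, hn⟩ := exists_nat_gt (2 * (M + M) / t + 2)
  have hn2 : (2 : ℝ) < n := by
    have : 0 ≤ 2 * (M + M) / t := by positivity
    linarith
  have hn1 : 1 ≤ n * n := by
    have : 0 < n := by
      rcases Nat.eq_zero_or_pos n with h | h
      · subst h; norm_num at hn2
      · exact h
    nlinarith
  obtain ⟨k, hk⟩ : ∃ k, n * n = k + 1 := ⟨n * n - 1, by omega⟩
  have a1 := key n
  have a2 := hgr k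
  rw [← hk] at a2
  have hk' : (k : ℝ) = n * n - 1 := by
    have : ((n * n : ℕ) : ℝ) = k + 1 := by rw [hk]; push_cast; ring
    push_cast at this
    linarith
  rw [hk'] at a2
  have a3 : 2 * (M + M) < (n - 2) * t := by
    have : 2 * (M + M) / t < n - 2 := by linarith
    rwa [div_lt_iff₀ ht] at this
  nlinarith

/-- If any two elements of `S` have a common fixed point, then every finite subset of the
group generated by `S` has a common fixed point. -/
theorem closure_loc (hX : IsRTree X) (x0 : X) (S : Set Γ)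
    (hS : ∀ a ∈ S, ∀ b ∈ S, ∃ p : X, a • p = p ∧ b • p = p) (F : Finset Γ)
    (hF : ∀ g ∈ F, g ∈ Subgroup.closure S) : ∃ p : X, ∀ g ∈ F, g • p = p := by
  classical
  have h1 : ∀ g ∈ Subgroup.closure S, ∃ T : Finset Γ, (∀ a ∈ T, a ∈ S) ∧
      ∀ p : X, (∀ a ∈ T, a • p = p) → g • p = p := by
    intro g hg
    induction hg using Subgroup.closure_induction with
    | mem g hg => exact ⟨{g}, by simpa using hg, fun p hp => hp g (by simp)⟩
    | one => exact ⟨∅, by simp, fun p _ => one_smul _ _⟩
    | mul g h _ _ ig ih =>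
      obtain ⟨T1, a1, b1⟩ := ig
      obtain ⟨T2, a2, b2⟩ := ih
      refine ⟨T1 ∪ T2, ?_, ?_⟩
      · intro a ha
        rcases Finset.mem_union.1 ha with h | h
        · exact a1 a h
        · exact a2 a h
      · intro p hp
        rw [← smul_smul, b2 p (fun a ha => hp a (Finset.mem_union_right _ ha)),
          b1 p (fun a ha => hp a (Finset.mem_union_left _ ha))]
    | inv g _ ig =>
      obtain ⟨T1, a1, b1⟩ := ig
      exact ⟨T1, a1, fun p hp => by rw [inv_smul_eq_iff, b1 p hp]⟩
  have h2 : ∀ F : Finset Γ, (∀ g ∈ F, g ∈ Subgroup.closure S) →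
      ∃ T : Finset Γ, (∀ a ∈ T, a ∈ S) ∧
        ∀ p : X, (∀ a ∈ T, a • p = p) → ∀ g ∈ F, g • p = p := by
    intro F
    induction F using Finset.induction with
    | empty => intro _; exact ⟨∅, by simp, fun p _ g hg => absurd hg (Finset.notMem_empty _)⟩
    | insert a F _ ih =>
      intro hF
      obtain ⟨T1, a1, b1⟩ := ih (fun g hg => hF g (Finset.mem_insert_of_mem hg))
      obtain ⟨T2, a2, b2⟩ := h1 a (hF a (Finset.mem_insert_self _ _))
      refine ⟨T1 ∪ T2, ?_, ?_⟩
      · intro a ha
        rcases Finset.mem_union.1 ha with h | h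
        · exact a1 a h
        · exact a2 a h
      · intro p hp g hg
        rcases Finset.mem_insert.1 hg with rfl | h
        · exact b2 p (fun a ha => hp a (Finset.mem_union_right _ ha))
        · exact b1 p (fun a ha => hp a (Finset.mem_union_left _ ha)) g h
  obtain ⟨T, hT1, hT2⟩ := h2 F hF
  rcases T.eq_empty_or_nonempty with rfl | hT
  · exact ⟨x0, hT2 x0 (by simp)⟩
  · obtain ⟨p, hp⟩ := helly hX T (fun g => {p : X | g • p = p}) (fun g => fix_cvx hX g)
      (fun a ha b hb => by
        obtain ⟨p, p1, p2⟩ := hS a (hT1 a ha) b (hT1 b hb)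
        exact ⟨p, p1, p2⟩) hT
    exact ⟨p, hT2 p hp⟩

end action

end Pool.Agent.Work.AffTree
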